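import Pool.Agent.TH404.AK.Ind
import Pool.Agent.W904.AK.Sdc2

/-!
# Sums-differences with exponent 1.669587
-/

set_option autoImplicit false
set_option linter.unusedSectionVars false
set_option linter.unnecessarySeqFocus false

open Finset Filter

namespace Pool.Agent.TH404.AK
open Pool.Agent.W904.AK Pool.Agent.W859.AK

/-- One step, in the max form. -/
theorem STEP3 {b c : ℝ} (g : Good3 b c) (hor : ∃ T w, Oracle b T w) : ∃ T', MaxForm c T' := by
  obtain ⟨hb1, hb2, hc1, hcb, hneg⟩ := id g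
  have hc0 : 0 < c := by linarith
  obtain ⟨n, hn⟩ := exists_nat_gt (11 / gain b c)
  have hgain := gain_pos g
  have hy : 11 < ys b c n := by
    rw [div_lt_iff₀ hgain] at hn
    exact hn.trans_le (ys_nonneg g n)
  obtain ⟨E, hE⟩ := R1_all g hor n
  obtain ⟨Q, F, hQ, hP⟩ := hE 1 1 0 2 ⟨by norm_num, by norm_num, by norm_num, by norm_num,
    by norm_num, by norm_num, by norm_num, by norm_num⟩
  generalize ys b c n = y at hy hP
  have hE0 : 0 < |E| + 1 := by positivity
  obtain ⟨ε, hε, hε2⟩ : ∃ ε : ℝ, 0 < ε ∧ ε * (4 * c * (|E| + 1)) = 1 :=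
    ⟨1 / (4 * c * (|E| + 1)), by positivity, by field_simp⟩
  obtain ⟨G, m, G0, m0, m1, havg⟩ := Pool.Agent.W349.AK.AVG (insert (-1) Q) {1} ε hε (by
    intro q hq
    rcases Finset.mem_insert.mp hq with rfl | hq
    · norm_num
    · exact hQ q hq)
  refine ⟨(G ×ˢ F).image (fun x => x.1.2 + x.1.1 * x.2) ∪
    G.image (fun v => v.2 + -v.1), ?_⟩
  intro Ω _ W _ _ p X D hp hd
  by_contra hcon
  push Not at hcon
  obtain ⟨v0, hv0⟩ : G.Nonempty := by
    rw [Finset.nonempty_iff_ne_empty]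
    intro h0
    rw [h0, Finset.sum_empty] at m1
    exact zero_ne_one m1
  have hα : 0 < H p D := by
    have h1 := hcon (v0.2 + -v0.1) (Finset.mem_union_right _
      (Finset.mem_image_of_mem (fun v : ℚ × ℚ => v.2 + -v.1) hv0))
    have h2 := H_nonneg hp (fun x => X x + (v0.2 + -v0.1) • D x)
    have h3 := mul_nonneg hc0.le h2
    linarith
  obtain ⟨h, hh⟩ : ∃ h : ℝ, h = H p D / c := ⟨_, rfl⟩
  have hh0 : 0 < h := by rw [hh]; exact div_pos hα hc0
  have hαh : H p D = c * h := by rw [hh, mul_div_cancel₀ _ hc0.ne']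
  have hlt : ∀ t ∈ (G ×ˢ F).image (fun x => x.1.2 + x.1.1 * x.2) ∪
      G.image (fun v => v.2 + -v.1), H p (pos X D t) ≤ h := by
    intro t ht
    have h1 := hcon t ht
    rw [hh, le_div_iff₀ hc0, mul_comm]
    exact h1.le
  have ok : Dat.ok (Dat.mk Ω W p X D h (ε * (2 * H p D)) G m) c Q F := by
    refine ⟨⟨hp, hd, G0, m0, m1, Finset.mem_insert_self _ _, ?_, ?_, ?_⟩, hαh, hh0.le⟩
    · intro g hg0 hg1
      obtain ⟨a1, a2⟩ := havg g (2 * H p D) hg0 hg1
      exact ⟨a1, a2 1 (Finset.mem_singleton_self _)⟩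
    · intro v hv t ht
      refine hlt _ (Finset.mem_union_left _ (Finset.mem_image.mpr ⟨(v, t), ?_, rfl⟩))
      exact Finset.mem_product.mpr ⟨hv, ht⟩
    · intro v hv
      exact hlt _ (Finset.mem_union_right _ (Finset.mem_image_of_mem
        (fun v : ℚ × ℚ => v.2 + -v.1) hv))
  have h1 := hP _ ok
  have h2 := av_nonneg ok (f := fun X D => U1 p X D 1 1 0 2)
    (fun X D => H_nonneg (C1_law hp 1 1) _)
  have h3 := P_nonneg ok
  have h4 := K_eq (b := b) ok
  have h5 := ok.ctx.P_le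
  set d : Dat := Dat.mk Ω W p X D h (ε * (2 * H p D)) G m with hd'
  have e1 : d.h = h := rfl
  have e2 : H d.p d.D = c * h := hαh
  have e3 : d.δ = ε * (2 * (c * h)) := by rw [hd', ← hαh]
  have h6 : 0 ≤ B1 b y d + E * d.δ := h2.trans h1
  have hu : 0 < b - 1 := by linarith
  have hb0 : b ≠ 0 := by linarith
  have h7 : (b - 1) * (B1 b y d + E * d.δ) = b * (4 * h - d.K b - y * h) -
      (4 * (c * h) - 2 * h - d.P) + (b - 1) * (E * d.δ) := by
    unfold B1
    rw [mul_add, mul_div_cancel₀ _ hu.ne', e1, e2]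
  have h8 : 0 ≤ (b - 1) * (B1 b y d + E * d.δ) := mul_nonneg hu.le h6
  have h9 : b * d.K b = ((b + 2) * c - 2 - b) * h - (b - 1) * (2 * h - d.P) := by
    rw [h4, e1]
    field_simp
    ring
  have h5' : d.P ≤ 2 * h := h5
  have h10 : E * d.δ ≤ h / 2 := by
    rw [e3]
    have : E ≤ |E| := le_abs_self E
    calc E * (ε * (2 * (c * h))) ≤ (|E| + 1) * (ε * (2 * (c * h))) := by
          refine mul_le_mul_of_nonneg_right (by linarith) (by positivity)
      _ = (ε * (4 * c * (|E| + 1))) * (h / 2) := by ring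
      _ = h / 2 := by rw [hε2, one_mul]
  have h11 : (b - 1) * (E * d.δ) ≤ (b - 1) * (h / 2) := mul_le_mul_of_nonneg_left h10 hu.le
  have h12 : (b - 1) * (h / 2) ≤ 1 * (h / 2) :=
    mul_le_mul_of_nonneg_right (by linarith) (by linarith)
  have h13 : (b - 1) * (2 * h - d.P) ≤ 1 * (2 * h) :=
    mul_le_mul (by linarith) (by linarith) (by linarith) one_pos.le
  have h14 : 0 ≤ ((b + 2) * c - 2 - b) * h := by
    have : (b + 2) * c - 2 - b = (b + 2) * (c - 1) := by ring
    rw [this]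
    exact mul_nonneg (mul_nonneg (by linarith) (by linarith)) hh0.le
  have h15 : 7 * h ≤ b * ((y - 4) * h) := by
    calc 7 * h = 1 * (7 * h) := by ring
      _ ≤ b * ((y - 4) * h) := by
        refine mul_le_mul hb1.le ?_ (by linarith) (by linarith)
        exact mul_le_mul_of_nonneg_right (by linarith) hh0.le
  have h16 : h ≤ c * h := by
    calc h = 1 * h := by ring
      _ ≤ c * h := mul_le_mul_of_nonneg_right hc1.le hh0.le
  have h17 : b * (4 * h - d.K b - y * h) = -(b * ((y - 4) * h)) - b * d.K b := by ring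
  rw [h7, h17, h9] at h8
  linarith

theorem chain3 : Good3 (167108 / 100000) (16698 / 10000) ∧
    Good3 (16698 / 10000) (166962 / 100000) ∧ Good3 (166962 / 100000) (16696 / 10000) ∧
    Good3 (16696 / 10000) (166959 / 100000) ∧ Good3 (166959 / 100000) (1669588 / 1000000) ∧
    Good3 (1669588 / 1000000) (1669587 / 1000000) := by
  refine ⟨?_, ?_, ?_, ?_, ?_, ?_⟩ <;> · unfold Good3 N3; norm_num

/-- One step. -/
theorem onestep3 {b c : ℝ} (g : Good3 b c) (h : ∃ T w, Oracle b T w) : ∃ T w, Oracle c T w := by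
  obtain ⟨T', hT'⟩ := STEP3 g h
  obtain ⟨w', hw'⟩ := minimax c T' (by linarith [g.2.2.1]) hT'
  exact ⟨T', w', hw'⟩

theorem oracle3 : ∃ T w, Oracle (1669587 / 1000000) T w := by
  obtain ⟨g1, g2, g3, g4, g5, g6⟩ := chain3
  exact onestep3 g6 (onestep3 g5 (onestep3 g4 (onestep3 g3 (onestep3 g2 (onestep3 g1 oracle2)))))

/-- The exponent of sums-differences is at most `1.669587`. -/
theorem sdc3 : SDc (1669587 / 1000000) := by
  obtain ⟨T, w, hO⟩ := oracle3
  exact Oracle.sdc (by norm_num) hO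

end Pool.Agent.TH404.AK
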