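import Pool.Agent.TH404.AK.Geo
import Pool.Agent.W410.AK.Step

/-!
# Averages

`Dat` is a law with an affine average; `Ev c P` says that `P` holds for all data for which
finitely many heights have entropy at most `h` and the average is invariant under finitely many
multipliers.
-/

set_option autoImplicit false
set_option linter.unusedSectionVars false
set_option linter.unnecessarySeqFocus false

open Finset Filter

namespace Pool.Agent.TH404.AK
open Pool.Agent.W904.AK Pool.Agent.W859.AK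

/-- A law together with an affine average. -/
structure Dat where
  (Ω : Type)
  [fi : Fintype Ω]
  (W : Type)
  [ac : AddCommGroup W]
  [mo : Module ℚ W]
  (p : Ω → ℝ)
  (X : Ω → W)
  (D : Ω → W)
  (h : ℝ)
  (δ : ℝ)
  (G : Finset (ℚ × ℚ))
  (m : ℚ × ℚ → ℝ)

attribute [instance] Dat.fi Dat.ac Dat.mo

/-- admissible data -/
structure Dat.ok (d : Dat) (c : ℝ) (Q F : Finset ℚ) : Prop where
  ctx : Pool.Agent.W410.AK.Ctx d.p d.X d.D d.h d.δ d.G d.m (insert (-1) Q) F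
  hD : H d.p d.D = c * d.h
  h0 : 0 ≤ d.h

/-- `P` holds for all admissible data (for suitable finite sets) -/
def Ev (c : ℝ) (P : Dat → Prop) : Prop :=
  ∃ Q F : Finset ℚ, (∀ q ∈ Q, q ≠ 0) ∧ ∀ d : Dat, d.ok c Q F → P d

/-- the average -/
noncomputable def Dat.av (d : Dat) (f : (d.Ω → d.W) → (d.Ω → d.W) → ℝ) : ℝ :=
  Pool.Agent.W410.AK.bar d.G d.m (fun v => f (pos d.X d.D v.2) (fun z => v.1 • d.D z))

/-- the Katz-Tao constant -/
noncomputable def Dat.K (d : Dat) (b : ℝ) : ℝ :=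
  Pool.Agent.W410.AK.KK b d.p d.X d.D d.h d.G d.m

/-- the average pair entropy -/
noncomputable def Dat.P (d : Dat) : ℝ := Pool.Agent.W410.AK.PP d.p d.X d.D d.G d.m

theorem Dat.ok.mono {d : Dat} {c : ℝ} {Q F Q' F' : Finset ℚ} (h : d.ok c Q F) (hQ : Q' ⊆ Q)
    (hF : F' ⊆ F) : d.ok c Q' F' :=
  ⟨⟨h.ctx.law, h.ctx.det, h.ctx.G0, h.ctx.m0, h.ctx.m1, Finset.mem_insert_self _ _,
    fun g h0 h1 => ⟨fun q hq => (h.ctx.avg g h0 h1).1 q (Finset.insert_subset_insert _ hQ hq),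
      (h.ctx.avg g h0 h1).2⟩, fun v hv t ht => h.ctx.hF v hv t (hF ht), h.ctx.hm⟩, h.hD, h.h0⟩

theorem Ev.mono {c : ℝ} {P P' : Dat → Prop} (h : Ev c P) (h' : ∀ d, P d → P' d) : Ev c P' := by
  obtain ⟨Q, F, h0, h1⟩ := h
  exact ⟨Q, F, h0, fun d hd => h' d (h1 d hd)⟩

theorem Ev.and {c : ℝ} {P P' : Dat → Prop} (h : Ev c P) (h' : Ev c P') :
    Ev c (fun d => P d ∧ P' d) := by
  obtain ⟨Q, F, h0, h1⟩ := h
  obtain ⟨Q', F', h0', h1'⟩ := h'
  refine ⟨Q ∪ Q', F ∪ F', ?_, fun d hd => ⟨h1 d (hd.mono Finset.subset_union_left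
    Finset.subset_union_left), h1' d (hd.mono Finset.subset_union_right
    Finset.subset_union_right)⟩⟩
  intro q hq
  rcases Finset.mem_union.mp hq with hq | hq
  exacts [h0 q hq, h0' q hq]

theorem Ev.all {c : ℝ} {T : Finset ℚ} {P : ℚ → Dat → Prop} (h : ∀ τ ∈ T, Ev c (P τ)) :
    Ev c (fun d => ∀ τ ∈ T, P τ d) := by
  induction T using Finset.induction_on with
  | empty => exact ⟨∅, ∅, by simp, fun d _ τ hτ => absurd hτ (Finset.notMem_empty τ)⟩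
  | insert a s ha ih =>
    refine ((h a (Finset.mem_insert_self _ _)).and
      (ih fun τ hτ => h τ (Finset.mem_insert_of_mem hτ))).mono ?_
    rintro d ⟨h1, h2⟩ τ hτ
    rcases Finset.mem_insert.mp hτ with rfl | hτ
    exacts [h1, h2 τ hτ]

theorem Ev.ok {c : ℝ} {Q F : Finset ℚ} (hQ : ∀ q ∈ Q, q ≠ 0) : Ev c (fun d => d.ok c Q F) :=
  ⟨Q, F, hQ, fun _ hd => hd⟩

section av

variable (d : Dat)

theorem av_add (f g : (d.Ω → d.W) → (d.Ω → d.W) → ℝ) :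
    d.av (fun X D => f X D + g X D) = d.av f + d.av g :=
  Pool.Agent.W410.AK.bar_add _ _

theorem av_sub (f g : (d.Ω → d.W) → (d.Ω → d.W) → ℝ) :
    d.av (fun X D => f X D - g X D) = d.av f - d.av g :=
  Pool.Agent.W410.AK.bar_sub _ _

theorem av_mul (c : ℝ) (f : (d.Ω → d.W) → (d.Ω → d.W) → ℝ) :
    d.av (fun X D => c * f X D) = c * d.av f :=
  Pool.Agent.W410.AK.bar_mul _ _

theorem av_sum (T : Finset ℚ) (f : ℚ → (d.Ω → d.W) → (d.Ω → d.W) → ℝ) :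
    d.av (fun X D => ∑ τ ∈ T, f τ X D) = ∑ τ ∈ T, d.av (f τ) :=
  Pool.Agent.W410.AK.bar_sum _ _

variable {d} {c : ℝ} {Q F : Finset ℚ}

theorem av_const (ok : d.ok c Q F) (a : ℝ) : d.av (fun _ _ => a) = a :=
  Pool.Agent.W410.AK.bar_const ok.ctx.m1 a

theorem av_le (ok : d.ok c Q F) {f g : (d.Ω → d.W) → (d.Ω → d.W) → ℝ}
    (h : ∀ X D : d.Ω → d.W, Det d.p D X → H d.p D = H d.p d.D →
      (∀ t ∈ F, H d.p (pos X D t) ≤ d.h) → f X D ≤ g X D) : d.av f ≤ d.av g := by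
  refine Pool.Agent.W410.AK.bar_mono ok.ctx.m0 fun v hv => ?_
  refine h _ _ (Pool.Agent.W410.AK.det_smul ok.ctx.det (ok.ctx.G0 v hv) v.2)
    (Pool.Agent.W410.AK.H_smul (ok.ctx.G0 v hv)) fun t ht => ?_
  rw [Pool.Agent.W410.AK.pos_pos]
  exact ok.ctx.hF v hv t ht

theorem av_nonneg (ok : d.ok c Q F) {f : (d.Ω → d.W) → (d.Ω → d.W) → ℝ}
    (h : ∀ X D : d.Ω → d.W, 0 ≤ f X D) : 0 ≤ d.av f := by
  have := av_le ok (f := fun _ _ => 0) (g := f) (fun X D _ _ _ => h X D)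
  rwa [av_const ok] at this

theorem P_nonneg (ok : d.ok c Q F) : 0 ≤ d.P := by
  unfold Dat.P Pool.Agent.W410.AK.PP Pool.Agent.W410.AK.bar
  exact Finset.sum_nonneg fun v hv => mul_nonneg (ok.ctx.m0 v hv)
    (Pool.Agent.W410.AK.pp_nonneg ok.ctx.law _ _)

/-- the average of the pair entropy for the multiplier `-v` -/
theorem av_pp (ok : d.ok c Q F) {v : ℚ} (hv : -v ∈ Q) :
    d.av (fun X D => pp d.p X D v (v / 1)) ≤ d.P + d.δ := by
  have h1 := (ok.ctx.avg (fun x y => pp d.p (pos d.X d.D y) d.D (-x) (-x))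
    (fun x y => Pool.Agent.W410.AK.pp_nonneg ok.ctx.law _ _)
    (fun x y => Pool.Agent.W410.AK.pp_le ok.ctx.law (Pool.Agent.W410.AK.det_pos ok.ctx.det y)
      _ _)).1 (-v) (Finset.mem_insert_of_mem hv)
  have h2 : d.av (fun X D => pp d.p X D v (v / 1)) =
      ∑ u ∈ d.G, d.m u * pp d.p (pos d.X d.D u.2) d.D (-(u.1 * -v)) (-(u.1 * -v)) := by
    unfold Dat.av Pool.Agent.W410.AK.bar
    refine Finset.sum_congr rfl fun u _ => ?_
    dsimp only
    rw [Pool.Agent.W410.AK.pp_smul, mul_neg, neg_neg, div_one]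
  have h3 : d.P = ∑ u ∈ d.G, d.m u * pp d.p (pos d.X d.D u.2) d.D (-u.1) (-u.1) := rfl
  rw [h2, h3]
  have := (abs_le.mp h1).2
  linarith

end av

/-- the Katz-Tao bound for the averages of `phi` over a family of points -/
theorem ev_kt {b : ℝ} {T : Finset ℚ} {w : ℚ → ℝ} (hO : Oracle b T w) (hb : 1 < b) (c : ℝ)
    {z0 z1 s k : ℚ} (g : GK z0 z1 s k) (hT : ∀ τ ∈ T, GT z0 z1 s k τ) :
    Ev c (fun d => d.K b - 2 * d.δ ≤
      ∑ τ ∈ T, w τ * d.av (fun X D => phi d.p X D (f0 z0 z1 s k τ) (f1 z0 z1 s k τ))) := by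
  have hsk : s - k * z1 ≠ 0 := sub_ne_zero.mpr g.h1
  have hs := g.hs
  have hz := g.hz
  obtain ⟨F', hK⟩ := Pool.Agent.W349.AK.KT b T w hO hb (z1 / (s - k * z1)) s
    (s * z0 / (s - k * z1)) (div_ne_zero hz hsk) (by
      intro h
      rw [eq_div_iff hsk] at h
      have := mul_left_cancel₀ hs h
      exact g.h2 (by linarith)) (by
      intro τ hτ
      refine ⟨(hT τ hτ).h1, fun h => (hT τ hτ).h2 ?_⟩
      rw [h]
      field_simp)
  have hf0 : ∀ τ ∈ T, f0 z0 z1 s k τ = ((s - k * z1) * τ - s * z0) / (τ - z0 - k * z1) := by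
    intro τ hτ
    have := (hT τ hτ).h3
    unfold f0 f1
    field_simp
    ring
  refine ⟨T.image (f0 z0 z1 s k), F', ?_, ?_⟩
  · intro q hq
    obtain ⟨τ, hτ, rfl⟩ := Finset.mem_image.mp hq
    rw [hf0 τ hτ]
    exact div_ne_zero (sub_ne_zero.mpr (hT τ hτ).h2) (hT τ hτ).h3
  · intro d ok
    have h1 := ok.ctx.kt hb hK (Finset.Subset.refl _)
    have h2 : ∑ τ ∈ T, w τ * (Pool.Agent.W410.AK.Bp d.p d.X d.D d.G d.m
        (z1 / (s - k * z1) * (τ - s) / (τ - s * z0 / (s - k * z1))) - d.δ) ≤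
        ∑ τ ∈ T, w τ * d.av (fun X D => phi d.p X D (f0 z0 z1 s k τ) (f1 z0 z1 s k τ)) := by
      refine Finset.sum_le_sum fun τ hτ => mul_le_mul_of_nonneg_left ?_ (hO.1 τ hτ)
      refine ok.ctx.phi_ge (Finset.mem_insert_of_mem (Finset.mem_image_of_mem _ hτ)) ?_
      have n1 := (hT τ hτ).h3
      have n2 : (s - k * z1) * τ - s * z0 ≠ 0 := sub_ne_zero.mpr (hT τ hτ).h2
      have e2 : τ - s * z0 / (s - k * z1) = ((s - k * z1) * τ - s * z0) / (s - k * z1) := by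
        field_simp
      rw [hf0 τ hτ, e2]
      unfold f1
      have n3 : s - k * z1 ≠ 0 := hsk
      generalize (s - k * z1) * τ - s * z0 = N at n2
      generalize s - k * z1 = M at n3
      generalize τ - z0 - k * z1 = L at n1
      field_simp
    have h3 : ∑ τ ∈ T, w τ * (Pool.Agent.W410.AK.Bp d.p d.X d.D d.G d.m
        (z1 / (s - k * z1) * (τ - s) / (τ - s * z0 / (s - k * z1))) - d.δ) =
        ∑ τ ∈ T, w τ * Pool.Agent.W410.AK.Bp d.p d.X d.D d.G d.m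
        (z1 / (s - k * z1) * (τ - s) / (τ - s * z0 / (s - k * z1))) - d.δ := by
      have : ∑ τ ∈ T, w τ * d.δ = d.δ := by rw [← Finset.sum_mul, hO.2.1, one_mul]
      conv_rhs => rw [← this]
      rw [← Finset.sum_sub_distrib]
      exact Finset.sum_congr rfl fun τ _ => by ring
    unfold Dat.K
    linarith

/-- an oracle with heights satisfying an eventual condition -/
theorem oracle_ev {b : ℝ} (h : ∃ T w, Oracle b T w) {P : ℚ → Prop} (hP : ∀ᶠ τ in atTop, P τ) :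
    ∃ T w, Oracle b T w ∧ ∀ τ ∈ T, P τ := by
  obtain ⟨T₀, w₀, hO₀⟩ := h
  obtain ⟨N, hN⟩ := eventually_atTop.mp hP
  obtain ⟨T, w, hO, hT⟩ := Pool.Agent.W790.AK.SHIFT b T₀ w₀ hO₀ N
  exact ⟨T, w, hO, fun τ hτ => hN τ (hT τ hτ).le⟩

theorem wsum_le {T : Finset ℚ} {w : ℚ → ℝ} (hw0 : ∀ t ∈ T, 0 ≤ w t) (hw1 : ∑ t ∈ T, w t = 1)
    {a f : ℚ → ℝ} {C A K : ℝ} (ha : ∀ τ ∈ T, a τ ≤ A) (hf : K ≤ ∑ τ ∈ T, w τ * f τ) :
    ∑ τ ∈ T, w τ * (C + a τ - f τ) ≤ C + A - K := by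
  have h1 : ∑ τ ∈ T, w τ * (C + a τ - f τ) ≤ ∑ τ ∈ T, (w τ * (C + A) - w τ * f τ) := by
    refine Finset.sum_le_sum fun τ hτ => ?_
    have := mul_le_mul_of_nonneg_left (ha τ hτ) (hw0 τ hτ)
    linarith
  rw [Finset.sum_sub_distrib, ← Finset.sum_mul, hw1, one_mul] at h1
  linarith

end Pool.Agent.TH404.AK
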