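import Pool.Agent.W904.AK.Sdc2

/-!
# Chains of planes

A plane is a pair of lines of the family meeting at height `0` (an element of `Ω × Ω`).  Planes
are added in front of a configuration; the new plane shares with the first plane of the
configuration the two points of the line `a + k b = s`.
-/

set_option autoImplicit false
set_option linter.unusedSectionVars false
set_option linter.unnecessarySeqFocus false

open Finset

namespace Pool.Agent.TH404.AK
open Pool.Agent.W904.AK Pool.Agent.W859.AK

variable {Ω : Type} [Fintype Ω] {W : Type} [AddCommGroup W] [Module ℚ W]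

/-- The point with coordinates `(a, b)` of a plane. -/
def pt (X D : Ω → W) (a b : ℚ) (u : Ω × Ω) : W := X u.1 + a • D u.1 + b • D u.2

/-- The two points of the line `a + k b = s` on the two lines of a plane. -/
def pr2 (X D : Ω → W) (s k : ℚ) (u : Ω × Ω) : W × W := (pos X D s u.1, pos X D (s / k) u.2)

/-- The two directions. -/
def dd (D : Ω → W) (u : Ω × Ω) : W × W := (D u.1, D u.2)

/-- A plane is added in front of a configuration `q` with first plane `φ`. -/
noncomputable def add (p : Ω → ℝ) (X D : Ω → W) (s k : ℚ) {Ω₂ : Type} [Fintype Ω₂]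
    (q : Ω₂ → ℝ) (φ : Ω₂ → Ω × Ω) : (Ω × Ω) × Ω₂ → ℝ :=
  glue (pair p X) q (pr2 X D s k) (fun y => pr2 X D s k (φ y))

section

variable {p : Ω → ℝ} {X D : Ω → W} {s k : ℚ} {Ω₂ : Type} [Fintype Ω₂] {q : Ω₂ → ℝ}
  {φ : Ω₂ → Ω × Ω}

theorem compat (hφ : im q φ = pair p X) (s k : ℚ) (c : W × W) :
    im (pair p X) (pr2 X D s k) c = im q (fun y => pr2 X D s k (φ y)) c := by
  rw [← hφ, im_comp]

theorem add_law (hp : IsLaw p) (hq : IsLaw q) (hφ : im q φ = pair p X) :
    IsLaw (add p X D s k q φ) := glue_law (pair_law hp X) hq (compat hφ s k)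

theorem add_fst (hp : IsLaw p) (hφ : im q φ = pair p X) :
    im (add p X D s k q φ) Prod.fst = pair p X := glue_fst (pair_law hp X) (compat hφ s k)

theorem add_snd (hq : IsLaw q) (hφ : im q φ = pair p X) :
    im (add p X D s k q φ) Prod.snd = q := glue_snd hq (compat hφ s k)

theorem add_supp {z : (Ω × Ω) × Ω₂} (hz : add p X D s k q φ z ≠ 0) :
    pr2 X D s k z.1 = pr2 X D s k (φ z.2) ∧ pair p X z.1 ≠ 0 ∧ q z.2 ≠ 0 := glue_supp hz

theorem H_add {α β : Type*} (hp : IsLaw p) (hq : IsLaw q) (hφ : im q φ = pair p X)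
    {u : Ω × Ω → α} {v : Ω₂ → β} (hu : Det (pair p X) u (pr2 X D s k))
    (hv : Det q v (fun y => pr2 X D s k (φ y))) :
    H (add p X D s k q φ) (fun z => (u z.1, v z.2)) =
      H (pair p X) u + H q v - pp p X D s (s / k) :=
  H_glue (pair_law hp X) hq (compat hφ s k) hu hv

theorem H_add_snd {α : Type*} (hq : IsLaw q) (hφ : im q φ = pair p X) (v : Ω₂ → α) :
    H (add p X D s k q φ) (fun z => v z.2) = H q v := H_map (add_snd hq hφ) v

theorem H_add_fst {α : Type*} (hp : IsLaw p) (hφ : im q φ = pair p X) (u : Ω × Ω → α) :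
    H (add p X D s k q φ) (fun z => u z.1) = H (pair p X) u := H_map (add_fst hp hφ) u

theorem pair_supp {u : Ω × Ω} (hu : pair p X u ≠ 0) : X u.1 = X u.2 ∧ p u.1 ≠ 0 ∧ p u.2 ≠ 0 :=
  glue_supp hu

/-- The directions determine every function of the heights. -/
theorem det_pr2 (hd : Det p D X) (s k : ℚ) : Det (pair p X) (dd D) (pr2 X D s k) := by
  intro u u' hu hu' h
  obtain ⟨-, h1, h2⟩ := pair_supp hu
  obtain ⟨-, h1', h2'⟩ := pair_supp hu'
  have e1 : D u.1 = D u'.1 := congrArg Prod.fst h
  have e2 : D u.2 = D u'.2 := congrArg Prod.snd h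
  have e3 := hd u.1 u'.1 h1 h1' e1
  have e4 := hd u.2 u'.2 h2 h2' e2
  simp only [pr2, pos, e1, e2, e3, e4]

theorem H_dd (hp : IsLaw p) (hd : Det p D X) : H (pair p X) (dd D) = 2 * H p D - H p X := by
  have := H_glue hp hp (fun _ => rfl) hd hd (f := X) (g := X)
  have h2 : H (pair p X) (dd D) = H p D + H p D - H p X := this
  rw [h2]; ring

/-- A point of the line `a + k b = s` in terms of the two points of this line. -/
theorem pt_line {a b : ℚ} (h : a + k * b = s) (hs : s ≠ 0) (hk : k ≠ 0) {u : Ω × Ω}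
    (hu : X u.1 = X u.2) :
    pt X D a b u = (a / s) • (pr2 X D s k u).1 + (b * k / s) • (pr2 X D s k u).2 := by
  unfold pt pr2 pos
  dsimp only
  rw [← hu]
  have e : a = s - k * b := by linarith
  subst e
  match_scalars <;> field_simp <;> ring

/-- The points of the common line. -/
theorem pt_glue {a b : ℚ} (h : a + k * b = s) (hs : s ≠ 0) (hk : k ≠ 0) {u u' : Ω × Ω}
    (hu : X u.1 = X u.2) (hu' : X u'.1 = X u'.2) (e : pr2 X D s k u = pr2 X D s k u') :
    pt X D a b u = pt X D a b u' := by
  rw [pt_line h hs hk hu, pt_line h hs hk hu', e]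

/-- The image law of the first plane of the configuration and the new plane. -/
theorem add_im {Ω₃ : Type} [Fintype Ω₃] (ψ : Ω₂ → Ω₃) {r : Ω₃ → ℝ}
    (hr : im q ψ = r) {φ' : Ω₃ → Ω × Ω} (hφ' : ∀ y, φ y = φ' (ψ y)) :
    im (add p X D s k q φ) (fun z => (z.1, ψ z.2)) = add p X D s k r φ' := by
  classical
  funext c
  obtain ⟨c1, c2⟩ := c
  rw [im_eq_sum, Fintype.sum_prod_type, Finset.sum_eq_single c1]
  · by_cases hc : pr2 X D s k c1 = pr2 X D s k (φ' c2)
    · have e4 : (pair p X c1 / im (pair p X) (pr2 X D s k) (pr2 X D s k c1)) * im q ψ c2 =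
          add p X D s k r φ' (c1, c2) := by
        rw [hr]
        unfold add glue
        dsimp only
        rw [if_pos hc]
        ring
      rw [← e4, im_eq_sum q ψ c2, Finset.mul_sum]
      refine Finset.sum_congr rfl fun y _ => ?_
      by_cases h : ψ y = c2
      · have h3 : pr2 X D s k c1 = pr2 X D s k (φ y) := by rw [hφ' y, h, hc]
        rw [if_pos (by dsimp only; rw [h]), if_pos h]
        unfold add glue
        dsimp only
        rw [if_pos h3]
        ring
      · rw [if_neg (fun h' => h (congrArg Prod.snd h')), if_neg h, mul_zero]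
    · have e4 : add p X D s k r φ' (c1, c2) = 0 := by
        unfold add glue
        dsimp only
        rw [if_neg hc]
      rw [e4]
      refine Finset.sum_eq_zero fun y _ => ?_
      by_cases h : ψ y = c2
      · have h3 : ¬ pr2 X D s k c1 = pr2 X D s k (φ y) := by rw [hφ' y, h]; exact hc
        rw [if_pos (by dsimp only; rw [h])]
        unfold add glue
        dsimp only
        rw [if_neg h3]
      · rw [if_neg (fun h' => h (congrArg Prod.snd h'))]
  · intro b _ hb
    refine Finset.sum_eq_zero fun y _ => if_neg (fun h => hb (congrArg Prod.fst h))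
  · intro h
    exact absurd (Finset.mem_univ _) h

end

end Pool.Agent.TH404.AK
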