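import Pool.Agent.TH404.AK.Conf

/-!
# Decoding

The configurations `C1` (two planes), `C2` (three planes), `C3` (four planes), the point
`κ = v + D (a₃)`, and the determination relations.
-/

set_option autoImplicit false
set_option linter.unusedSectionVars false
set_option linter.unnecessarySeqFocus false

open Finset

namespace Pool.Agent.TH404.AK
open Pool.Agent.W904.AK Pool.Agent.W859.AK

variable {Ω : Type} [Fintype Ω] {W : Type} [AddCommGroup W] [Module ℚ W]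

/-- Two planes sharing the line `a + k b = s`. -/
noncomputable def C1 (p : Ω → ℝ) (X D : Ω → W) (s k : ℚ) : (Ω × Ω) × (Ω × Ω) → ℝ :=
  add p X D s k (pair p X) id

/-- Three planes: the first and the second share `a + k₁ b = s₁`, the second and the third share
`a + k₂ b = s₂`. -/
noncomputable def C2 (p : Ω → ℝ) (X D : Ω → W) (s₁ k₁ s₂ k₂ : ℚ) :
    (Ω × Ω) × ((Ω × Ω) × (Ω × Ω)) → ℝ :=
  add p X D s₁ k₁ (C1 p X D s₂ k₂) Prod.fst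

/-- Four planes. -/
noncomputable def C3 (p : Ω → ℝ) (X D : Ω → W) (s₀ k₀ s₁ k₁ s₂ k₂ : ℚ) :
    (Ω × Ω) × ((Ω × Ω) × ((Ω × Ω) × (Ω × Ω))) → ℝ :=
  add p X D s₀ k₀ (C2 p X D s₁ k₁ s₂ k₂) Prod.fst

/-- The point `κ = v + D (a₃)` of the last two planes. -/
def kap (X D : Ω → W) (v0 v1 : ℚ) (y : (Ω × Ω) × (Ω × Ω)) : W :=
  pt X D v0 v1 y.1 + D y.2.1

section

variable {p : Ω → ℝ} {X D : Ω → W}

theorem C1_fst (hp : IsLaw p) (s k : ℚ) : im (C1 p X D s k) Prod.fst = pair p X := by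
  refine add_fst hp ?_
  funext c
  have := im_comp (pair p X) (id : Ω × Ω → Ω × Ω) (id : Ω × Ω → Ω × Ω) c
  have h2 : im (pair p X) (id : Ω × Ω → Ω × Ω) c = pair p X c := by
    classical
    rw [im_eq_sum, Finset.sum_eq_single c]
    · simp
    · intro b _ hb
      exact if_neg hb
    · intro h
      exact absurd (Finset.mem_univ _) h
  exact h2

theorem im_id {Ω' : Type} [Fintype Ω'] (q : Ω' → ℝ) : im q (id : Ω' → Ω') = q := by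
  classical
  funext c
  rw [im_eq_sum, Finset.sum_eq_single c]
  · simp
  · intro b _ hb
    exact if_neg hb
  · intro h
    exact absurd (Finset.mem_univ _) h

theorem C1_law (hp : IsLaw p) (s k : ℚ) : IsLaw (C1 p X D s k) :=
  add_law hp (pair_law hp X) (im_id _)

theorem C2_law (hp : IsLaw p) (s₁ k₁ s₂ k₂ : ℚ) : IsLaw (C2 p X D s₁ k₁ s₂ k₂) :=
  add_law hp (C1_law hp s₂ k₂) (C1_fst hp s₂ k₂)

theorem C2_fst (hp : IsLaw p) (s₁ k₁ s₂ k₂ : ℚ) :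
    im (C2 p X D s₁ k₁ s₂ k₂) Prod.fst = pair p X := add_fst hp (C1_fst hp s₂ k₂)

theorem C3_law (hp : IsLaw p) (s₀ k₀ s₁ k₁ s₂ k₂ : ℚ) :
    IsLaw (C3 p X D s₀ k₀ s₁ k₁ s₂ k₂) :=
  add_law hp (C2_law hp s₁ k₁ s₂ k₂) (C2_fst hp s₁ k₁ s₂ k₂)

theorem C3_fst (hp : IsLaw p) (s₀ k₀ s₁ k₁ s₂ k₂ : ℚ) :
    im (C3 p X D s₀ k₀ s₁ k₁ s₂ k₂) Prod.fst = pair p X := add_fst hp (C2_fst hp s₁ k₁ s₂ k₂)

/-- The support of `C1`. -/
structure S1 (p : Ω → ℝ) (X D : Ω → W) (s k : ℚ) (y : (Ω × Ω) × (Ω × Ω)) : Prop where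
  e : pr2 X D s k y.1 = pr2 X D s k y.2
  x1 : X y.1.1 = X y.1.2
  x2 : X y.2.1 = X y.2.2
  p11 : p y.1.1 ≠ 0
  p12 : p y.1.2 ≠ 0
  p21 : p y.2.1 ≠ 0
  p22 : p y.2.2 ≠ 0

theorem C1_supp {s k : ℚ} {y : (Ω × Ω) × (Ω × Ω)} (hy : C1 p X D s k y ≠ 0) :
    S1 p X D s k y := by
  obtain ⟨h1, h2, h3⟩ := add_supp hy
  obtain ⟨a1, a2, a3⟩ := pair_supp h2
  obtain ⟨b1, b2, b3⟩ := pair_supp h3
  exact ⟨h1, a1, b1, a2, a3, b2, b3⟩

/-- The support of `C2`. -/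
structure S2 (p : Ω → ℝ) (X D : Ω → W) (s₁ k₁ s₂ k₂ : ℚ)
    (y : (Ω × Ω) × ((Ω × Ω) × (Ω × Ω))) : Prop where
  e : pr2 X D s₁ k₁ y.1 = pr2 X D s₁ k₁ y.2.1
  x : X y.1.1 = X y.1.2
  p1 : p y.1.1 ≠ 0
  p2 : p y.1.2 ≠ 0
  r : S1 p X D s₂ k₂ y.2

theorem C2_supp {s₁ k₁ s₂ k₂ : ℚ} {y : (Ω × Ω) × ((Ω × Ω) × (Ω × Ω))}
    (hy : C2 p X D s₁ k₁ s₂ k₂ y ≠ 0) : S2 p X D s₁ k₁ s₂ k₂ y := by
  obtain ⟨h1, h2, h3⟩ := add_supp hy
  obtain ⟨a1, a2, a3⟩ := pair_supp h2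
  exact ⟨h1, a1, a2, a3, C1_supp h3⟩

/-- The support of `C3`. -/
structure S3 (p : Ω → ℝ) (X D : Ω → W) (s₀ k₀ s₁ k₁ s₂ k₂ : ℚ)
    (y : (Ω × Ω) × ((Ω × Ω) × ((Ω × Ω) × (Ω × Ω)))) : Prop where
  e : pr2 X D s₀ k₀ y.1 = pr2 X D s₀ k₀ y.2.1
  x : X y.1.1 = X y.1.2
  p1 : p y.1.1 ≠ 0
  p2 : p y.1.2 ≠ 0
  r : S2 p X D s₁ k₁ s₂ k₂ y.2

theorem C3_supp {s₀ k₀ s₁ k₁ s₂ k₂ : ℚ} {y : (Ω × Ω) × ((Ω × Ω) × ((Ω × Ω) × (Ω × Ω)))}
    (hy : C3 p X D s₀ k₀ s₁ k₁ s₂ k₂ y ≠ 0) : S3 p X D s₀ k₀ s₁ k₁ s₂ k₂ y := by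
  obtain ⟨h1, h2, h3⟩ := add_supp hy
  obtain ⟨a1, a2, a3⟩ := pair_supp h2
  exact ⟨h1, a1, a2, a3, C2_supp h3⟩

theorem smul_cancel {a : ℚ} (ha : a ≠ 0) {u v : W} (h : a • u = a • v) : u = v :=
  Pool.Agent.W131.AK.smul_cancel ha h

/-- Equality of all data of two planes. -/
structure Eqp (X D : Ω → W) (u u' : Ω × Ω) : Prop where
  x : X u.1 = X u'.1
  a : D u.1 = D u'.1
  b : D u.2 = D u'.2

theorem Eqp.pt {u u' : Ω × Ω} (h : Eqp X D u u') (a b : ℚ) :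
    pt X D a b u = pt X D a b u' := by
  unfold AK.pt
  rw [h.x, h.a, h.b]

theorem Eqp.pr2 {u u' : Ω × Ω} (h : Eqp X D u u') (hx : X u.1 = X u.2) (hx' : X u'.1 = X u'.2)
    (s k : ℚ) : pr2 X D s k u = pr2 X D s k u' := by
  unfold AK.pr2 pos
  rw [← hx, ← hx', h.x, h.a, h.b]

/-- a plane from one line and one point -/
theorem Eqp.of_pt (hd : Det p D X) {u u' : Ω × Ω} (hp : p u.1 ≠ 0) (hp' : p u'.1 ≠ 0)
    {z0 z1 : ℚ} (hz : z1 ≠ 0) (h : AK.pt X D z0 z1 u = AK.pt X D z0 z1 u')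
    (ha : D u.1 = D u'.1) :
    Eqp X D u u' := by
  have hx := hd u.1 u'.1 hp hp' ha
  refine ⟨hx, ha, ?_⟩
  unfold AK.pt at h
  rw [hx, ha] at h
  exact smul_cancel hz (add_left_cancel h)

/-- the second plane from the first plane and the direction of its first line -/
theorem Eqp.of_glue (hd : Det p D X) {s k : ℚ} (hs : s ≠ 0) (hk : k ≠ 0) {u u' w w' : Ω × Ω}
    (h : Eqp X D u u') (hx : X u.1 = X u.2) (hx' : X u'.1 = X u'.2)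
    (hw : X w.1 = X w.2) (hw' : X w'.1 = X w'.2) (hp : p w.1 ≠ 0) (hp' : p w'.1 ≠ 0)
    (e : AK.pr2 X D s k u = AK.pr2 X D s k w) (e' : AK.pr2 X D s k u' = AK.pr2 X D s k w')
    (ha : D w.1 = D w'.1) : Eqp X D w w' := by
  have h1 := hd w.1 w'.1 hp hp' ha
  refine ⟨h1, ha, ?_⟩
  have h2 : AK.pr2 X D s k w = AK.pr2 X D s k w' := by
    rw [← e, ← e', h.pr2 hx hx']
  have h3 := congrArg Prod.snd h2
  unfold AK.pr2 pos at h3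
  dsimp only at h3
  rw [← hw, ← hw', h1] at h3
  exact smul_cancel (div_ne_zero hs hk) (add_left_cancel h3)

theorem dd_eq {u u' : Ω × Ω} (h : Eqp X D u u') : dd D u = dd D u' := by
  unfold dd
  rw [h.a, h.b]

/-- decoding of the last two planes from the point `v` of the third plane and `κ` -/
theorem dec23 (hd : Det p D X) {v0 v1 : ℚ} (hv0 : v0 ≠ 0) (hv1 : v1 ≠ 0)
    {y y' : (Ω × Ω) × (Ω × Ω)} (hy : S1 p X D v0 1 y) (hy' : S1 p X D v0 1 y')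
    (hv : pt X D v0 v1 y.1 = pt X D v0 v1 y'.1) (hκ : kap X D v0 v1 y = kap X D v0 v1 y') :
    Eqp X D y.1 y'.1 ∧ Eqp X D y.2 y'.2 := by
  have h1 : D y.2.1 = D y'.2.1 := by
    unfold kap at hκ
    rw [hv] at hκ
    exact add_left_cancel hκ
  have h2 := hd _ _ hy.p21 hy'.p21 h1
  -- the point A₂
  have h3 : pos X D v0 y.1.1 = pos X D v0 y'.1.1 := by
    have e1 := congrArg Prod.fst hy.e
    have e2 := congrArg Prod.fst hy'.e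
    simp only [pr2] at e1 e2
    rw [e1, e2]
    unfold pos
    rw [h1, h2]
  have h4 : D y.1.2 = D y'.1.2 := by
    have : v1 • D y.1.2 = v1 • D y'.1.2 := by
      unfold pt at hv
      unfold pos at h3
      rw [h3] at hv
      exact add_left_cancel hv
    exact smul_cancel hv1 this
  have h5 : X y.1.1 = X y'.1.1 := by
    rw [hy.x1, hy'.x1]
    exact hd _ _ hy.p12 hy'.p12 h4
  have h6 : D y.1.1 = D y'.1.1 := by
    unfold pos at h3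
    rw [h5] at h3
    exact smul_cancel hv0 (add_left_cancel h3)
  have h7 : Eqp X D y.1 y'.1 := ⟨h5, h6, h4⟩
  exact ⟨h7, h7.of_glue hd hv0 one_ne_zero hy.x1 hy'.x1 hy.x2 hy'.x2 hy.p21 hy'.p21 hy.e hy'.e h1⟩

/-- decoding at the level of two planes -/
theorem dec1 (hd : Det p D X) {v0 v1 q0 q1 : ℚ} (hv0 : v0 ≠ 0) (hq1 : q1 ≠ 0)
    {y y' : (Ω × Ω) × (Ω × Ω)} (hy : S1 p X D v0 1 y) (hy' : S1 p X D v0 1 y')
    (hz : pt X D q0 q1 y.1 = pt X D q0 q1 y'.1) (hκ : kap X D v0 v1 y = kap X D v0 v1 y')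
    (ha : D y.1.1 = D y'.1.1) :
    Eqp X D y.1 y'.1 ∧ Eqp X D y.2 y'.2 := by
  have h7 : Eqp X D y.1 y'.1 := Eqp.of_pt hd hy.p11 hy'.p11 hq1 hz ha
  have h1 : D y.2.1 = D y'.2.1 := by
    unfold kap at hκ
    rw [h7.pt] at hκ
    exact add_left_cancel hκ
  exact ⟨h7, h7.of_glue hd hv0 one_ne_zero hy.x1 hy'.x1 hy.x2 hy'.x2 hy.p21 hy'.p21 hy.e hy'.e h1⟩

/-- a plane from the two neighbouring planes sharing different lines with it -/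
theorem Eqp.of_two (hd : Det p D X) {s k t l : ℚ} (hst : s ≠ t) (hs : s ≠ 0) (hk : k ≠ 0)
    {u u' w w' m m' : Ω × Ω} (h : Eqp X D u u')
    (hx : X u.1 = X u.2) (hx' : X u'.1 = X u'.2) (hm : X m.1 = X m.2) (hm' : X m'.1 = X m'.2)
    (hp : p m.1 ≠ 0) (hp' : p m'.1 ≠ 0)
    (e : AK.pr2 X D s k u = AK.pr2 X D s k m) (e' : AK.pr2 X D s k u' = AK.pr2 X D s k m')
    (f : AK.pr2 X D t l m = AK.pr2 X D t l w) (f' : AK.pr2 X D t l m' = AK.pr2 X D t l w')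
    (hw : (AK.pr2 X D t l w).1 = (AK.pr2 X D t l w').1) : Eqp X D m m' := by
  have g1 : pos X D s m.1 = pos X D s m'.1 := by
    have e1 := congrArg Prod.fst e
    have e2 := congrArg Prod.fst e'
    simp only [AK.pr2] at e1 e2
    rw [← e1, ← e2]
    unfold pos
    rw [h.x, h.a]
  have g2 : pos X D t m.1 = pos X D t m'.1 := by
    have e1 := congrArg Prod.fst f
    have e2 := congrArg Prod.fst f'
    simp only [AK.pr2] at e1 e2 hw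
    rw [e1, e2, hw]
  have g3 : D m.1 = D m'.1 := by
    have : (s - t) • D m.1 = (s - t) • D m'.1 := by
      unfold pos at g1 g2
      linear_combination (norm := module) g1 - g2
    exact smul_cancel (sub_ne_zero.mpr hst) this
  exact h.of_glue hd hs hk hx hx' hm hm' hp hp' e e' g3

/-- decoding at the level of three planes -/
theorem dec2 (hd : Det p D X) {v0 v1 m k z0 z1 : ℚ} (hv0 : v0 ≠ 0)
    (hm : m = v0 + k * v1) (hm0 : m ≠ 0) (hk : k ≠ 0) (hmv : m ≠ v0) (hz1 : z1 ≠ 0)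
    {y y' : (Ω × Ω) × ((Ω × Ω) × (Ω × Ω))} (hy : S2 p X D m k v0 1 y)
    (hy' : S2 p X D m k v0 1 y')
    (hz : pt X D z0 z1 y.1 = pt X D z0 z1 y'.1) (hκ : kap X D v0 v1 y.2 = kap X D v0 v1 y'.2)
    (ha : D y.1.1 = D y'.1.1) :
    Eqp X D y.1 y'.1 ∧ Eqp X D y.2.1 y'.2.1 ∧ Eqp X D y.2.2 y'.2.2 := by
  have h7 : Eqp X D y.1 y'.1 := Eqp.of_pt hd hy.p1 hy'.p1 hz1 hz ha
  have hv : pt X D v0 v1 y.2.1 = pt X D v0 v1 y'.2.1 := by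
    rw [← pt_glue hm.symm hm0 hk hy.x hy.r.x1 hy.e, ← pt_glue hm.symm hm0 hk hy'.x hy'.r.x1 hy'.e,
      h7.pt]
  have h1 : D y.2.2.1 = D y'.2.2.1 := by
    unfold kap at hκ
    rw [hv] at hκ
    exact add_left_cancel hκ
  have h2 := hd _ _ hy.r.p21 hy'.r.p21 h1
  have h8 : Eqp X D y.2.1 y'.2.1 := by
    refine h7.of_two hd (t := v0) (l := 1) (w := y.2.2) (w' := y'.2.2) hmv hm0 hk hy.x hy'.x
      hy.r.x1 hy'.r.x1 hy.r.p11 hy'.r.p11 hy.e hy'.e hy.r.e hy'.r.e ?_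
    unfold pr2 pos
    dsimp only
    rw [h1, h2]
  exact ⟨h7, h8, h8.of_glue hd hv0 one_ne_zero hy.r.x1 hy'.r.x1 hy.r.x2 hy'.r.x2 hy.r.p21
    hy'.r.p21 hy.r.e hy'.r.e h1⟩

/-- decoding at the level of four planes -/
theorem dec3 (hd : Det p D X) {v0 v1 s j m k z0 z1 : ℚ} (hv0 : v0 ≠ 0) (hv1 : v1 ≠ 0)
    (hs : s = v0 + j * v1) (hs0 : s ≠ 0) (hj : j ≠ 0)
    (hm : m = v0 + k * v1) (hm0 : m ≠ 0) (hk : k ≠ 0) (hsm : s ≠ m) (hz1 : z1 ≠ 0)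
    {y y' : (Ω × Ω) × ((Ω × Ω) × ((Ω × Ω) × (Ω × Ω)))} (hy : S3 p X D s j m k v0 1 y)
    (hy' : S3 p X D s j m k v0 1 y')
    (hz : pt X D z0 z1 y.1 = pt X D z0 z1 y'.1)
    (hκ : kap X D v0 v1 y.2.2 = kap X D v0 v1 y'.2.2)
    (ha : D y.1.1 = D y'.1.1) :
    Eqp X D y.1 y'.1 ∧ Eqp X D y.2.1 y'.2.1 ∧ Eqp X D y.2.2.1 y'.2.2.1 ∧
      Eqp X D y.2.2.2 y'.2.2.2 := by
  have h7 : Eqp X D y.1 y'.1 := Eqp.of_pt hd hy.p1 hy'.p1 hz1 hz ha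
  have hv' : pt X D v0 v1 y.2.1 = pt X D v0 v1 y'.2.1 := by
    rw [← pt_glue hs.symm hs0 hj hy.x hy.r.x hy.e, ← pt_glue hs.symm hs0 hj hy'.x hy'.r.x hy'.e,
      h7.pt]
  have hv : pt X D v0 v1 y.2.2.1 = pt X D v0 v1 y'.2.2.1 := by
    rw [← pt_glue hm.symm hm0 hk hy.r.x hy.r.r.x1 hy.r.e,
      ← pt_glue hm.symm hm0 hk hy'.r.x hy'.r.r.x1 hy'.r.e, hv']
  obtain ⟨h9, h10⟩ := dec23 hd hv0 hv1 hy.r.r hy'.r.r hv hκ
  refine ⟨h7, ?_, h9, h10⟩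
  refine h7.of_two hd (t := m) (l := k) (w := y.2.2.1) (w' := y'.2.2.1) hsm hs0 hj hy.x hy'.x
      hy.r.x hy'.r.x hy.r.p1 hy'.r.p1 hy.e hy'.e hy.r.e hy'.r.e ?_
  rw [h9.pr2 hy.r.r.x1 hy'.r.r.x1]

/-- decoding of the last two of four planes from a line through `v` in the first plane -/
theorem decF (hd : Det p D X) {v0 v1 s j m k n l : ℚ} (hv0 : v0 ≠ 0) (hv1 : v1 ≠ 0)
    (hs : s = v0 + j * v1) (hs0 : s ≠ 0) (hj : j ≠ 0)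
    (hm : m = v0 + k * v1) (hm0 : m ≠ 0) (hk : k ≠ 0)
    (hn : n = v0 + l * v1) (hn0 : n ≠ 0) (hl : l ≠ 0)
    {y y' : (Ω × Ω) × ((Ω × Ω) × ((Ω × Ω) × (Ω × Ω)))} (hy : S3 p X D s j m k v0 1 y)
    (hy' : S3 p X D s j m k v0 1 y')
    (hN : pr2 X D n l y.1 = pr2 X D n l y'.1)
    (hκ : kap X D v0 v1 y.2.2 = kap X D v0 v1 y'.2.2) :
    Eqp X D y.2.2.1 y'.2.2.1 ∧ Eqp X D y.2.2.2 y'.2.2.2 := by
  have h7 : pt X D v0 v1 y.1 = pt X D v0 v1 y'.1 := by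
    rw [pt_line hn.symm hn0 hl hy.x, pt_line hn.symm hn0 hl hy'.x, hN]
  have hv' : pt X D v0 v1 y.2.1 = pt X D v0 v1 y'.2.1 := by
    rw [← pt_glue hs.symm hs0 hj hy.x hy.r.x hy.e, ← pt_glue hs.symm hs0 hj hy'.x hy'.r.x hy'.e,
      h7]
  have hv : pt X D v0 v1 y.2.2.1 = pt X D v0 v1 y'.2.2.1 := by
    rw [← pt_glue hm.symm hm0 hk hy.r.x hy.r.r.x1 hy.r.e,
      ← pt_glue hm.symm hm0 hk hy'.r.x hy'.r.r.x1 hy'.r.e, hv']
  exact dec23 hd hv0 hv1 hy.r.r hy'.r.r hv hκ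

end

end Pool.Agent.TH404.AK
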