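import Pool.Agent.TH404.AK.Lev

/-!
# Nondegeneracy

All conditions are linear and hold for all sufficiently large heights.
-/

set_option autoImplicit false
set_option linter.unusedSectionVars false
set_option linter.unnecessarySeqFocus false

open Finset Filter

namespace Pool.Agent.TH404.AK

/-- conditions on the second coordinate of a point -/
structure GV (v0 v1 k x : ℚ) : Prop where
  a : x ≠ 0
  b : x ≠ v0
  c : x ≠ v1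
  d : x ≠ v1 - 1
  e : (v0 + 1) * x ≠ v0 * v1
  f : (1 - k) * x ≠ -(k * v1)
  g : k * x ≠ v0 + k * v1

/-- conditions at level 1 -/
structure G1 (v0 v1 q0 q1 : ℚ) : Prop where
  hv0 : v0 ≠ 0
  hv1 : v1 ≠ 0
  a : q1 ≠ 0
  b : q1 ≠ v0
  c : q1 ≠ v1
  d : q1 ≠ v1 - 1
  e : (v0 + 1) * q1 ≠ v0 * v1
  f : q0 + 1 * q1 ≠ v0

/-- conditions at level 2 -/
structure G2 (v0 v1 k p0 p1 : ℚ) : Prop where
  hv0 : v0 ≠ 0
  hv1 : v1 ≠ 0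
  hk : k ≠ 0
  hm : v0 + k * v1 ≠ 0
  gv : GV v0 v1 k p1
  on : p0 + k * p1 ≠ v0 + k * v1

/-- conditions at level 3 -/
structure G3 (v0 v1 j k z0 z1 : ℚ) : Prop where
  hv0 : v0 ≠ 0
  hv1 : v1 ≠ 0
  hj : j ≠ 0
  hs : v0 + j * v1 ≠ 0
  hk : k ≠ 0
  hm : v0 + k * v1 ≠ 0
  hjk : j ≠ k
  gv : GV v0 v1 k z1
  hjz : j * z1 ≠ v0 + j * v1
  on : z0 + j * z1 ≠ v0 + j * v1

/-- nondegenerate types -/
structure NT (v0 v1 l j k : ℚ) : Prop where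
  hv0 : v0 ≠ 0
  hv1 : v1 ≠ 0
  hl : l ≠ 0
  hn : v0 + l * v1 ≠ 0
  hj : j ≠ 0
  hs : v0 + j * v1 ≠ 0
  hk : k ≠ 0
  hm : v0 + k * v1 ≠ 0
  hlj : l ≠ j
  hjk : j ≠ k

/-- conditions for the Katz-Tao bound -/
structure GK (z0 z1 s k : ℚ) : Prop where
  hs : s ≠ 0
  hz : z1 ≠ 0
  h1 : s ≠ k * z1
  h2 : z0 + k * z1 ≠ s

/-- conditions on the heights for the Katz-Tao bound -/
structure GT (z0 z1 s k τ : ℚ) : Prop where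
  h1 : τ ≠ s
  h2 : (s - k * z1) * τ ≠ s * z0
  h3 : τ - z0 - k * z1 ≠ 0

theorem ev_ne {a c : ℚ} (ha : a ≠ 0) : ∀ᶠ x : ℚ in atTop, a * x ≠ c := by
  filter_upwards [eventually_gt_atTop (c / a)] with x hx h
  have : x = c / a := by
    rw [eq_div_iff ha]
    linarith
  exact hx.ne' this

theorem ev_ne' {a c : ℚ} (h : a ≠ 0 ∨ c ≠ 0) : ∀ᶠ x : ℚ in atTop, a * x ≠ c := by
  by_cases ha : a = 0
  · subst ha
    rcases h with h | h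
    · exact absurd rfl h
    · exact Eventually.of_forall fun x hx => h (by rw [← hx, zero_mul])
  · exact ev_ne ha

theorem ev_x (c : ℚ) : ∀ᶠ x : ℚ in atTop, x ≠ c := by
  filter_upwards [eventually_gt_atTop c] with x hx
  exact hx.ne'

theorem ev_GT {z0 z1 s k : ℚ} (g : GK z0 z1 s k) : ∀ᶠ τ : ℚ in atTop, GT z0 z1 s k τ := by
  filter_upwards [ev_x s, ev_ne (c := s * z0) (sub_ne_zero.mpr g.h1), ev_x (z0 + k * z1)]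
    with τ h1 h2 h3
  exact ⟨h1, h2, fun h => h3 (by linarith)⟩

theorem ev_f {z0 z1 s k a c : ℚ} (h : a * z1 ≠ c) :
    ∀ᶠ τ : ℚ in atTop, a * f1 z0 z1 s k τ ≠ c := by
  filter_upwards [ev_x (z0 + k * z1), ev_ne (c := a * z1 * s - c * (z0 + k * z1))
    (sub_ne_zero.mpr h)] with τ h1 h2 h3
  have h4 : τ - z0 - k * z1 ≠ 0 := fun h => h1 (by linarith)
  unfold f1 at h3
  rw [← mul_div_assoc, div_eq_iff h4] at h3
  exact h2 (by linarith)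

theorem ev_f' {z0 z1 s k c : ℚ} (h : z1 ≠ c) :
    ∀ᶠ τ : ℚ in atTop, f1 z0 z1 s k τ ≠ c := by
  have := ev_f (z0 := z0) (s := s) (k := k) (a := 1) (c := c) (z1 := z1) (by rwa [one_mul])
  simpa only [one_mul] using this

theorem ev_GV {v0 v1 k z0 z1 s l : ℚ} (g : GV v0 v1 k z1) :
    ∀ᶠ τ : ℚ in atTop, GV v0 v1 k (f1 z0 z1 s l τ) := by
  filter_upwards [ev_f' g.a, ev_f' g.b, ev_f' g.c, ev_f' g.d, ev_f g.e, ev_f g.f, ev_f g.g]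
    with τ h1 h2 h3 h4 h5 h6 h7
  exact ⟨h1, h2, h3, h4, h5, h6, h7⟩

theorem geo1K {v0 v1 q0 q1 : ℚ} (g : G1 v0 v1 q0 q1) : GK q0 q1 v0 1 :=
  ⟨g.hv0, g.a, fun h => g.b (by linarith), g.f⟩

theorem geo1 {v0 v1 q0 q1 : ℚ} (g : G1 v0 v1 q0 q1) : ∀ᶠ ρ : ℚ in atTop,
    (ρ ≠ 0 ∧ ρ ≠ q0 ∧ ρ ≠ v0 ∧ ρ - q0 - 1 * q1 ≠ 0 ∧ ee v0 v1 q0 q1 ρ ≠ 0) ∧
    NT (f0 q0 q1 v0 1 ρ) (f1 q0 q1 v0 1 ρ) ((ρ - q0) / q1) 1 (kM v0 v1 q0 q1 ρ) ∧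
    GT q0 q1 v0 1 ρ := by
  have n4 : q1 - v1 ≠ 0 := sub_ne_zero.mpr g.c
  have n5 : v0 - q1 ≠ 0 := sub_ne_zero.mpr (Ne.symm g.b)
  have n6 : v0 * (q1 - v1) + q1 ≠ 0 := fun h => g.e (by linarith)
  have n7 : 1 + q1 - v1 ≠ 0 := fun h => g.d (by linarith)
  filter_upwards [ev_x 0, ev_x q0, ev_x v0, ev_x (q0 + q1), ev_ne (c := q1 * v0 - v1 * q0) n4,
    ev_ne (c := v0 * q0) n5, ev_ne (c := v0 * (q1 * v0 - v1 * q0) + q1 * v0) n6,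
    ev_ne (c := q0 + q1 + q1 * v0 - v1 * q0) n7, ev_GT (geo1K g)] with ρ r0 r1 r2 r3 r4 r5 r6 r7 r8
  have a1 := g.a
  have a0 := g.hv0
  have s2 : ρ - v0 ≠ 0 := sub_ne_zero.mpr r2
  have s1 : ρ - q0 ≠ 0 := sub_ne_zero.mpr r1
  have s3 : ρ - q0 - 1 * q1 ≠ 0 := fun h => r3 (by linarith)
  have hee : ee v0 v1 q0 q1 ρ ≠ 0 := by
    unfold ee
    intro h
    rw [sub_eq_zero, eq_comm, div_eq_one_iff_eq (mul_ne_zero a1 s2)] at h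
    exact r4 (by linarith)
  have hf1 : f1 q0 q1 v0 1 ρ ≠ 0 := by
    unfold f1
    exact div_ne_zero (mul_ne_zero a1 s2) s3
  have on1 := f_on (s := v0) a1 s3
  have on3 : f0 q0 q1 v0 1 ρ + 1 * f1 q0 q1 v0 1 ρ = v0 := by unfold f0; ring
  have on4 : f0 q0 q1 v0 1 ρ + kM v0 v1 q0 q1 ρ * f1 q0 q1 v0 1 ρ = ch v0 v1 q0 q1 ρ := by
    unfold kM
    field_simp
    ring
  have hch : ch v0 v1 q0 q1 ρ ≠ 0 := by
    unfold ch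
    intro h
    have h2 : v0 * ee v0 v1 q0 q1 ρ + 1 = 0 := by
      field_simp at h
      linarith
    unfold ee at h2
    have h3 : v0 * (q1 * (ρ - v0) - v1 * (ρ - q0)) + q1 * (ρ - v0) = 0 := by
      field_simp at h2
      linarith
    exact r6 (by linarith)
  have hkM : kM v0 v1 q0 q1 ρ ≠ 0 := by
    intro h
    rw [h, zero_mul, add_zero] at on4
    have h2 : 1 + ee v0 v1 q0 q1 ρ * f1 q0 q1 v0 1 ρ = 0 := by
      have h3 : ch v0 v1 q0 q1 ρ = f0 q0 q1 v0 1 ρ := on4.symm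
      unfold ch f0 at h3
      have h4 : 1 / ee v0 v1 q0 q1 ρ = - f1 q0 q1 v0 1 ρ := by linarith
      rw [div_eq_iff hee] at h4
      linarith
    unfold ee f1 at h2
    have h3 : ρ - q0 - q1 + (q1 * (ρ - v0) - v1 * (ρ - q0)) = 0 := by
      rw [one_mul] at s3 h2
      field_simp at h2
      linarith
    exact r7 (by linarith)
  refine ⟨⟨r0, r1, r2, s3, hee⟩, ⟨?_, hf1, div_ne_zero s1 a1, ?_, one_ne_zero, ?_, hkM, ?_,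
    ?_, ?_⟩, r8⟩
  · unfold f0 f1
    intro h
    rw [one_mul, sub_eq_zero, eq_div_iff s3] at h
    exact r5 (by linarith)
  · rw [on1]; exact r0
  · rw [on3]; exact a0
  · rw [on4]; exact hch
  · intro h
    rw [div_eq_one_iff_eq a1] at h
    exact r3 (by linarith)
  · intro h
    rw [← h, on3] at on4
    unfold ch at on4
    have : 1 / ee v0 v1 q0 q1 ρ = 0 := by linarith
    exact one_div_ne_zero hee this

theorem geo2K {v0 v1 k p0 p1 : ℚ} (g : G2 v0 v1 k p0 p1) : GK p0 p1 (v0 + k * v1) k :=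
  ⟨g.hm, g.gv.a, fun h => g.gv.g h.symm, g.on⟩

theorem geo2 {v0 v1 k p0 p1 : ℚ} (g : G2 v0 v1 k p0 p1) : ∀ᶠ τ : ℚ in atTop,
    (τ ≠ 0 ∧ τ ≠ p0 ∧ τ - p0 - k * p1 ≠ 0) ∧
    G1 v0 v1 (f0 p0 p1 (v0 + k * v1) k τ) (f1 p0 p1 (v0 + k * v1) k τ) ∧
    GT p0 p1 (v0 + k * v1) k τ := by
  filter_upwards [ev_x 0, ev_x p0, ev_GT (geo2K g), ev_GV g.gv] with τ r0 r1 r2 r3
  refine ⟨⟨r0, r1, r2.h3⟩, ⟨g.hv0, g.hv1, r3.a, r3.b, r3.c, r3.d, r3.e, ?_⟩, r2⟩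
  unfold f0
  intro h
  exact r3.f (by linarith)

theorem geo3K {v0 v1 j k z0 z1 : ℚ} (g : G3 v0 v1 j k z0 z1) : GK z0 z1 (v0 + j * v1) j :=
  ⟨g.hs, g.gv.a, fun h => g.hjz h.symm, g.on⟩

theorem geo3 {v0 v1 j k z0 z1 : ℚ} (g : G3 v0 v1 j k z0 z1) : ∀ᶠ τ : ℚ in atTop,
    (τ ≠ 0 ∧ τ ≠ z0 ∧ τ - z0 - j * z1 ≠ 0) ∧
    G2 v0 v1 k (f0 z0 z1 (v0 + j * v1) j τ) (f1 z0 z1 (v0 + j * v1) j τ) ∧
    GT z0 z1 (v0 + j * v1) j τ := by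
  filter_upwards [ev_x 0, ev_x z0, ev_GT (geo3K g), ev_GV g.gv] with τ r0 r1 r2 r3
  refine ⟨⟨r0, r1, r2.h3⟩, ⟨g.hv0, g.hv1, g.hk, g.hm, r3, ?_⟩, r2⟩
  unfold f0
  intro h
  have h2 : (k - j) * (f1 z0 z1 (v0 + j * v1) j τ - v1) = 0 := by linarith
  rcases mul_eq_zero.mp h2 with h3 | h3
  · exact g.hjk (by linarith)
  · exact r3.c (by linarith)

theorem geoF {v0 v1 l j k : ℚ} (g : NT v0 v1 l j k) : ∃ w0 w1 : ℚ, GK w0 w1 (v0 + l * v1) l ∧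
    ∀ᶠ τ : ℚ in atTop,
      G3 v0 v1 j k (f0 w0 w1 (v0 + l * v1) l τ) (f1 w0 w1 (v0 + l * v1) l τ) ∧
      GT w0 w1 (v0 + l * v1) l τ := by
  have h : ∀ᶠ x : ℚ in atTop, GV v0 v1 k x ∧ j * x ≠ v0 + j * v1 ∧ l * x ≠ v0 + l * v1 := by
    have hp : v0 * v1 ≠ 0 := mul_ne_zero g.hv0 g.hv1
    filter_upwards [ev_x 0, ev_x v0, ev_x v1, ev_x (v1 - 1),
      ev_ne' (a := v0 + 1) (c := v0 * v1) (Or.inr hp),
      ev_ne' (a := 1 - k) (c := -(k * v1)) (Or.inr (neg_ne_zero.mpr (mul_ne_zero g.hk g.hv1))),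
      ev_ne (c := v0 + k * v1) g.hk, ev_ne (c := v0 + j * v1) g.hj,
      ev_ne (c := v0 + l * v1) g.hl] with x h1 h2 h3 h4 h5 h6 h7 h8 h9
    exact ⟨⟨h1, h2, h3, h4, h5, h6, h7⟩, h8, h9⟩
  obtain ⟨w1, h1, h2, h3⟩ := h.exists
  have hK : GK (v0 + l * v1 + 1 - l * w1) w1 (v0 + l * v1) l :=
    ⟨g.hn, h1.a, fun h => h3 h.symm, fun h => by linarith⟩
  refine ⟨v0 + l * v1 + 1 - l * w1, w1, hK, ?_⟩
  filter_upwards [ev_GT hK, ev_GV h1, ev_f h2] with τ r1 r2 r3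
  refine ⟨⟨g.hv0, g.hv1, g.hj, g.hs, g.hk, g.hm, g.hjk, r2, r3, ?_⟩, r1⟩
  unfold f0
  intro h
  have h2 : (j - l) * (f1 (v0 + l * v1 + 1 - l * w1) w1 (v0 + l * v1) l τ - v1) = 0 := by
    linarith
  rcases mul_eq_zero.mp h2 with h3 | h3
  · exact g.hlj (by linarith)
  · exact r2.c (by linarith)

end Pool.Agent.TH404.AK
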