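import Pool.Agent.TH404.AK.Avg

/-!
# The induction
-/

set_option autoImplicit false
set_option linter.unusedSectionVars false
set_option linter.unnecessarySeqFocus false

open Finset Filter

namespace Pool.Agent.TH404.AK
open Pool.Agent.W904.AK Pool.Agent.W859.AK

/-- the bound at level 1 -/
noncomputable def B1 (b y : ℝ) (d : Dat) : ℝ :=
  (b * (4 * d.h - d.K b - y * d.h) - (4 * H d.p d.D - 2 * d.h - d.P)) / (b - 1)

/-- the bound at level 2 -/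
noncomputable def B2 (b y : ℝ) (d : Dat) : ℝ :=
  (b * (2 * d.h + B1 b y d - d.K b) - (6 * H d.p d.D - 5 * d.h - d.P)) / (b - 1)

/-- the bound at level 3 -/
noncomputable def B3 (b y : ℝ) (d : Dat) : ℝ :=
  (b * (2 * d.h + B2 b y d - d.K b) - (8 * H d.p d.D - 8 * d.h - d.P)) / (b - 1)

def R1 (b c y E : ℝ) : Prop := ∀ v0 v1 q0 q1 : ℚ, G1 v0 v1 q0 q1 →
  Ev c (fun d => d.av (fun X D => U1 d.p X D v0 v1 q0 q1) ≤ B1 b y d + E * d.δ)

def R2 (b c y E : ℝ) : Prop := ∀ v0 v1 k p0 p1 : ℚ, G2 v0 v1 k p0 p1 →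
  Ev c (fun d => d.av (fun X D => U2 d.p X D v0 v1 k p0 p1) ≤ B2 b y d + E * d.δ)

def R3 (b c y E : ℝ) : Prop := ∀ v0 v1 j k z0 z1 : ℚ, G3 v0 v1 j k z0 z1 →
  Ev c (fun d => d.av (fun X D => U3 d.p X D v0 v1 j k z0 z1) ≤ B3 b y d + E * d.δ)

def QQ (b c y E : ℝ) : Prop := ∀ v0 v1 l j k : ℚ, NT v0 v1 l j k →
  Ev c (fun d => d.av (fun X D => bet d.p X D v0 v1 l j k) ≤
    4 * d.h - d.K b - y * d.h + E * d.δ)

/-- the last step of every level -/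
theorem fin_level {u a A B E E' δ M : ℝ} (hu : 0 < u) (h : u * a + A ≤ M)
    (hB : u * B = M - A - E' * δ) (hE : u * E = E') : a ≤ B + E * δ := by
  refine le_of_mul_le_mul_left ?_ hu
  have : u * (B + E * δ) = u * B + (u * E) * δ := by ring
  rw [this, hB, hE]
  linarith

/-- `β ≤ 4 h - φ` -/
theorem bet_le {Ω : Type} [Fintype Ω] {W : Type} [AddCommGroup W] [Module ℚ W] {p : Ω → ℝ}
    {X D : Ω → W} {h : ℝ} (hp : IsLaw p) {v0 v1 l j k : ℚ} (g : NT v0 v1 l j k)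
    (h1 : H p (pos X D (v0 + l * v1)) ≤ h) (h2 : H p (pos X D ((v0 + l * v1) / l)) ≤ h)
    (h3 : H p (pos X D (v0 + k * v1)) ≤ h) (h4 : H p (pos X D ((v0 + k * v1) / k)) ≤ h) :
    bet p X D v0 v1 l j k ≤ 4 * h - phi p X D v0 v1 := by
  have hl := C1_law (X := X) (D := D) hp (v0 + j * v1) j
  have f1 := C1_fst (X := X) (D := D) hp (v0 + j * v1) j
  have f2 : im (C1 p X D (v0 + j * v1) j) Prod.snd = pair p X :=
    add_snd (pair_law hp X) (im_id _)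
  have e1 : H (C1 p X D (v0 + j * v1) j) (fun y => pr2 X D (v0 + l * v1) l y.1) ≤ 2 * h := by
    have := H_map f1 (pr2 X D (v0 + l * v1) l)
    rw [this]
    exact pp_le2 hp h1 h2
  have e2 : H (C1 p X D (v0 + j * v1) j) (fun y => pr2 X D (v0 + k * v1) k y.2) ≤ 2 * h := by
    have := H_map f2 (pr2 X D (v0 + k * v1) k)
    rw [this]
    exact pp_le2 hp h3 h4
  have e3 : H (C1 p X D (v0 + j * v1) j) (fun y => pt X D v0 v1 y.1) = phi p X D v0 v1 :=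
    H_map f1 (pt X D v0 v1)
  have e4 := submod' hl (f := fun y => pr2 X D (v0 + l * v1) l y.1)
    (g := fun y => pr2 X D (v0 + k * v1) k y.2) (h := fun y => pt X D v0 v1 y.1)
    (k := fun y => (pr2 X D (v0 + l * v1) l y.1, pr2 X D (v0 + k * v1) k y.2))
    (by
      intro y y' hy hy' e
      dsimp only at e ⊢
      rw [pt_line rfl g.hn g.hl (C1_supp hy).x1, pt_line rfl g.hn g.hl (C1_supp hy').x1, e])
    (by
      intro y y' hy hy' e
      dsimp only at e ⊢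
      have s1 := C1_supp hy
      have s2 := C1_supp hy'
      rw [pt_glue rfl g.hs g.hj s1.x1 s1.x2 s1.e, pt_glue rfl g.hs g.hj s2.x1 s2.x2 s2.e,
        pt_line rfl g.hm g.hk s1.x2, pt_line rfl g.hm g.hk s2.x2, e])
    (Det.refl _ _)
  have e5 : H (C1 p X D (v0 + j * v1) j)
      (fun y => (pr2 X D (v0 + l * v1) l y.1, pr2 X D (v0 + k * v1) k y.2)) =
      bet p X D v0 v1 l j k := rfl
  rw [e3, e5] at e4
  linarith

section

variable {b c y E : ℝ}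

/-- averaging the inequality of level 1 -/
theorem avg1 (hb1 : 1 < b) {T : Finset ℚ} {w : ℚ → ℝ} (hO : Oracle b T w)
    {v0 v1 q0 q1 : ℚ} (g : G1 v0 v1 q0 q1)
    (hT : ∀ ρ ∈ T, ρ ≠ 0 ∧ ρ ≠ q0 ∧ ρ ≠ v0 ∧ ρ - q0 - 1 * q1 ≠ 0 ∧ ee v0 v1 q0 q1 ρ ≠ 0)
    {d : Dat} {Q F : Finset ℚ} (ok : d.ok c Q F) (h0 : (0 : ℚ) ∈ F) (hq : -v0 ∈ Q) :
    (b - 1) * d.av (fun X D => U1 d.p X D v0 v1 q0 q1) +
      (4 * H d.p d.D - 2 * d.h - d.P - d.δ) ≤
      b * ∑ ρ ∈ T, w ρ * d.av (fun X D => bet d.p X D (f0 q0 q1 v0 1 ρ) (f1 q0 q1 v0 1 ρ)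
        ((ρ - q0) / q1) 1 (kM v0 v1 q0 q1 ρ)) := by
  have h1 := av_le ok (f := fun X D => (b - 1) * U1 d.p X D v0 v1 q0 q1 +
    (4 * H d.p d.D - 2 * d.h - pp d.p X D v0 (v0 / 1)))
    (g := fun X D => b * ∑ ρ ∈ T, w ρ * bet d.p X D (f0 q0 q1 v0 1 ρ) (f1 q0 q1 v0 1 ρ)
        ((ρ - q0) / q1) 1 (kM v0 v1 q0 q1 ρ)) (by
      intro X D hd hD hF
      have h2 := lev1 hO (by linarith) ok.ctx.law hd g.hv0 g.a hT
      have h3 : H d.p X ≤ d.h := by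
        have := hF 0 h0
        have e : pos X D 0 = X := by
          funext z; simp [pos]
        rwa [e] at this
      rw [hD] at h2
      linarith)
  rw [av_add, av_mul, av_sub, av_const ok, av_mul, av_sum] at h1
  simp only [av_mul] at h1
  have h2 := av_pp ok hq
  linarith

/-- averaging the inequality of level 2 -/
theorem avg2 (hb1 : 1 < b) {T : Finset ℚ} {w : ℚ → ℝ} (hO : Oracle b T w)
    {v0 v1 k p0 p1 : ℚ} (g : G2 v0 v1 k p0 p1)
    (hT : ∀ τ ∈ T, τ ≠ 0 ∧ τ ≠ p0 ∧ τ - p0 - k * p1 ≠ 0)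
    {d : Dat} {Q F : Finset ℚ} (ok : d.ok c Q F) (h0 : (0 : ℚ) ∈ F) (hq : -v0 ∈ Q)
    (h1 : v0 + k * v1 ∈ F) (h2 : (v0 + k * v1) / k ∈ F) (h3 : ∀ τ ∈ T, τ ∈ F)
    (h4 : ∀ τ ∈ T, τ / ((τ - p0) / p1) ∈ F) :
    (b - 1) * d.av (fun X D => U2 d.p X D v0 v1 k p0 p1) +
      (6 * H d.p d.D - 5 * d.h - d.P - d.δ) ≤
      b * ∑ τ ∈ T, w τ * (2 * d.h + d.av (fun X D => U1 d.p X D v0 v1
        (f0 p0 p1 (v0 + k * v1) k τ) (f1 p0 p1 (v0 + k * v1) k τ)) -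
        d.av (fun X D => phi d.p X D (f0 p0 p1 (v0 + k * v1) k τ)
          (f1 p0 p1 (v0 + k * v1) k τ))) := by
  have h5 := av_le ok (f := fun X D => (b - 1) * U2 d.p X D v0 v1 k p0 p1 +
    (6 * H d.p d.D - 5 * d.h - pp d.p X D v0 (v0 / 1)))
    (g := fun X D => b * ∑ τ ∈ T, w τ * (2 * d.h + U1 d.p X D v0 v1
        (f0 p0 p1 (v0 + k * v1) k τ) (f1 p0 p1 (v0 + k * v1) k τ) -
        phi d.p X D (f0 p0 p1 (v0 + k * v1) k τ) (f1 p0 p1 (v0 + k * v1) k τ))) (by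
      intro X D hd hD hF
      have h6 := lev2 hO (by linarith) ok.ctx.law hd g.hv0 g.hv1 g.hk g.hm g.gv.a hT
        (fun τ hτ => ⟨hF τ (h3 τ hτ), hF _ (h4 τ hτ)⟩)
      have h7 : H d.p X ≤ d.h := by
        have := hF 0 h0
        have e : pos X D 0 = X := by
          funext z; simp [pos]
        rwa [e] at this
      have h8 := pp_le2 ok.ctx.law (hF _ h1) (hF _ h2)
      rw [hD] at h6
      linarith)
  rw [av_add, av_mul, av_sub, av_const ok, av_mul, av_sum] at h5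
  simp only [av_mul, av_sub, av_add, av_const ok] at h5
  have h6 := av_pp ok hq
  linarith

/-- averaging the inequality of level 3 -/
theorem avg3 (hb1 : 1 < b) {T : Finset ℚ} {w : ℚ → ℝ} (hO : Oracle b T w)
    {v0 v1 j k z0 z1 : ℚ} (g : G3 v0 v1 j k z0 z1)
    (hT : ∀ τ ∈ T, τ ≠ 0 ∧ τ ≠ z0 ∧ τ - z0 - j * z1 ≠ 0)
    {d : Dat} {Q F : Finset ℚ} (ok : d.ok c Q F) (h0 : (0 : ℚ) ∈ F) (hq : -v0 ∈ Q)
    (h1 : v0 + k * v1 ∈ F) (h2 : (v0 + k * v1) / k ∈ F) (h3 : ∀ τ ∈ T, τ ∈ F)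
    (h4 : ∀ τ ∈ T, τ / ((τ - z0) / z1) ∈ F)
    (h1' : v0 + j * v1 ∈ F) (h2' : (v0 + j * v1) / j ∈ F) :
    (b - 1) * d.av (fun X D => U3 d.p X D v0 v1 j k z0 z1) +
      (8 * H d.p d.D - 8 * d.h - d.P - d.δ) ≤
      b * ∑ τ ∈ T, w τ * (2 * d.h + d.av (fun X D => U2 d.p X D v0 v1 k
        (f0 z0 z1 (v0 + j * v1) j τ) (f1 z0 z1 (v0 + j * v1) j τ)) -
        d.av (fun X D => phi d.p X D (f0 z0 z1 (v0 + j * v1) j τ)
          (f1 z0 z1 (v0 + j * v1) j τ))) := by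
  have h5 := av_le ok (f := fun X D => (b - 1) * U3 d.p X D v0 v1 j k z0 z1 +
    (8 * H d.p d.D - 8 * d.h - pp d.p X D v0 (v0 / 1)))
    (g := fun X D => b * ∑ τ ∈ T, w τ * (2 * d.h + U2 d.p X D v0 v1 k
        (f0 z0 z1 (v0 + j * v1) j τ) (f1 z0 z1 (v0 + j * v1) j τ) -
        phi d.p X D (f0 z0 z1 (v0 + j * v1) j τ) (f1 z0 z1 (v0 + j * v1) j τ))) (by
      intro X D hd hD hF
      have h6 := lev3 hO (by linarith) ok.ctx.law hd g.hv0 g.hv1 g.hj g.hs g.hk g.hm g.hjk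
        g.gv.a hT (fun τ hτ => ⟨hF τ (h3 τ hτ), hF _ (h4 τ hτ)⟩)
      have h7 : H d.p X ≤ d.h := by
        have := hF 0 h0
        have e : pos X D 0 = X := by
          funext z; simp [pos]
        rwa [e] at this
      have h8 := pp_le2 ok.ctx.law (hF _ h1) (hF _ h2)
      have h8' := pp_le2 ok.ctx.law (hF _ h1') (hF _ h2')
      rw [hD] at h6
      linarith)
  rw [av_add, av_mul, av_sub, av_const ok, av_mul, av_sum] at h5
  simp only [av_mul, av_sub, av_add, av_const ok] at h5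
  have h6 := av_pp ok hq
  linarith

/-- averaging the last inequality -/
theorem avgF {v0 v1 l j k z0 z1 : ℚ} (g : NT v0 v1 l j k) (hz : z0 + l * z1 = v0 + l * v1)
    {d : Dat} {Q F : Finset ℚ} (ok : d.ok c Q F) (h0 : (0 : ℚ) ∈ F) (hq : -v0 ∈ Q)
    (h1 : v0 + k * v1 ∈ F) (h2 : (v0 + k * v1) / k ∈ F)
    (h3 : v0 + l * v1 ∈ F) (h4 : (v0 + l * v1) / l ∈ F) :
    d.av (fun X D => bet d.p X D v0 v1 l j k) + (4 * H d.p d.D - 4 * d.h - d.P - d.δ) ≤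
      d.av (fun X D => U3 d.p X D v0 v1 j k z0 z1) + 2 * d.h -
        d.av (fun X D => phi d.p X D z0 z1) := by
  have h5 := av_le ok (f := fun X D => bet d.p X D v0 v1 l j k +
    (4 * H d.p d.D - 4 * d.h - pp d.p X D v0 (v0 / 1)))
    (g := fun X D => U3 d.p X D v0 v1 j k z0 z1 + 2 * d.h - phi d.p X D z0 z1) (by
      intro X D hd hD hF
      have h6 := levF (h := d.h) ok.ctx.law hd g.hv0 g.hv1 g.hl g.hn g.hj g.hs g.hk g.hm hz
        (hF _ h3) (hF _ h4)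
      have h7 : H d.p X ≤ d.h := by
        have := hF 0 h0
        have e : pos X D 0 = X := by
          funext z; simp [pos]
        rwa [e] at this
      have h8 := pp_le2 ok.ctx.law (hF _ h1) (hF _ h2)
      rw [hD] at h6
      linarith)
  rw [av_add, av_sub, av_const ok, av_sub, av_add, av_const ok] at h5
  have h6 := av_pp ok hq
  linarith

/-- from `β` to level 1 -/
theorem QR1 (hb1 : 1 < b) (hor : ∃ T w, Oracle b T w) (h : QQ b c y E) :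
    R1 b c y ((b * E + 1) / (b - 1)) := by
  intro v0 v1 q0 q1 g
  obtain ⟨T, w, hO, hT⟩ := oracle_ev hor (geo1 g)
  have e1 := Ev.all fun ρ hρ => h _ _ _ _ _ (hT ρ hρ).2.1
  have e3 : Ev c (fun d => d.ok c {-v0} {0}) := Ev.ok (by
    intro q hq
    rw [Finset.mem_singleton.mp hq]
    exact neg_ne_zero.mpr g.hv0)
  refine (e1.and e3).mono ?_
  rintro d ⟨h1, ok⟩
  have h4 := avg1 hb1 hO g (fun ρ hρ => (hT ρ hρ).1) ok (by simp) (by simp)
  have hu : 0 < b - 1 := by linarith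
  have h5 : ∑ ρ ∈ T, w ρ * d.av (fun X D => bet d.p X D (f0 q0 q1 v0 1 ρ) (f1 q0 q1 v0 1 ρ)
        ((ρ - q0) / q1) 1 (kM v0 v1 q0 q1 ρ)) ≤ 4 * d.h - d.K b - y * d.h + E * d.δ := by
    calc _ ≤ ∑ ρ ∈ T, w ρ * (4 * d.h - d.K b - y * d.h + E * d.δ) :=
          Finset.sum_le_sum fun ρ hρ => mul_le_mul_of_nonneg_left (h1 ρ hρ) (hO.1 ρ hρ)
      _ = _ := by rw [← Finset.sum_mul, hO.2.1, one_mul]
  have h6 := h4.trans (mul_le_mul_of_nonneg_left h5 (by linarith))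
  refine fin_level hu h6 (E' := b * E + 1) ?_ (mul_div_cancel₀ _ hu.ne')
  unfold B1
  rw [mul_div_cancel₀ _ hu.ne']
  ring

/-- the start of the induction -/
theorem R1_zero (hb1 : 1 < b) (hor : ∃ T w, Oracle b T w) :
    R1 b c 0 ((b * 2 + 1) / (b - 1)) := by
  intro v0 v1 q0 q1 g
  obtain ⟨T, w, hO, hT⟩ := oracle_ev hor (geo1 g)
  have e2 := ev_kt hO hb1 c (geo1K g) fun ρ hρ => (hT ρ hρ).2.2
  set F0 : Finset ℚ := insert 0 (T.biUnion fun ρ =>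
    {ρ, ρ / ((ρ - q0) / q1), ch v0 v1 q0 q1 ρ, ch v0 v1 q0 q1 ρ / kM v0 v1 q0 q1 ρ}) with hF0
  have e3 : Ev c (fun d => d.ok c {-v0} F0) := Ev.ok (by
    intro q hq
    rw [Finset.mem_singleton.mp hq]
    exact neg_ne_zero.mpr g.hv0)
  refine (e2.and e3).mono ?_
  rintro d ⟨h1, ok⟩
  have h4 := avg1 hb1 hO g (fun ρ hρ => (hT ρ hρ).1) ok (by simp [hF0]) (by simp)
  have hu : 0 < b - 1 := by linarith
  have h5 : ∑ ρ ∈ T, w ρ * d.av (fun X D => bet d.p X D (f0 q0 q1 v0 1 ρ) (f1 q0 q1 v0 1 ρ)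
        ((ρ - q0) / q1) 1 (kM v0 v1 q0 q1 ρ)) ≤ 4 * d.h - d.K b + 2 * d.δ := by
    have h6 : ∀ ρ ∈ T, d.av (fun X D => bet d.p X D (f0 q0 q1 v0 1 ρ) (f1 q0 q1 v0 1 ρ)
        ((ρ - q0) / q1) 1 (kM v0 v1 q0 q1 ρ)) ≤ 4 * d.h -
        d.av (fun X D => phi d.p X D (f0 q0 q1 v0 1 ρ) (f1 q0 q1 v0 1 ρ)) := by
      intro ρ hρ
      have nt := (hT ρ hρ).2.1
      have on1 := f_on (s := v0) g.a (hT ρ hρ).1.2.2.2.1
      have on4 : f0 q0 q1 v0 1 ρ + kM v0 v1 q0 q1 ρ * f1 q0 q1 v0 1 ρ = ch v0 v1 q0 q1 ρ := by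
        have := nt.hv1
        unfold kM
        field_simp
        ring
      have hmem : ∀ x ∈ ({ρ, ρ / ((ρ - q0) / q1), ch v0 v1 q0 q1 ρ,
          ch v0 v1 q0 q1 ρ / kM v0 v1 q0 q1 ρ} : Finset ℚ), x ∈ F0 := fun x hx =>
        Finset.mem_insert_of_mem (Finset.mem_biUnion.mpr ⟨ρ, hρ, hx⟩)
      have h7 := av_le ok (f := fun X D => bet d.p X D (f0 q0 q1 v0 1 ρ) (f1 q0 q1 v0 1 ρ)
        ((ρ - q0) / q1) 1 (kM v0 v1 q0 q1 ρ))
        (g := fun X D => 4 * d.h - phi d.p X D (f0 q0 q1 v0 1 ρ) (f1 q0 q1 v0 1 ρ)) (by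
          intro X D hd hD hF
          refine bet_le ok.ctx.law nt ?_ ?_ ?_ ?_
          · rw [on1]; exact hF _ (hmem _ (by simp))
          · rw [on1]; exact hF _ (hmem _ (by simp))
          · rw [on4]; exact hF _ (hmem _ (by simp))
          · rw [on4]; exact hF _ (hmem _ (by simp)))
      rw [av_sub, av_const ok] at h7
      exact h7
    have h8 : ∑ ρ ∈ T, w ρ * d.av (fun X D => bet d.p X D (f0 q0 q1 v0 1 ρ) (f1 q0 q1 v0 1 ρ)
        ((ρ - q0) / q1) 1 (kM v0 v1 q0 q1 ρ)) ≤ ∑ ρ ∈ T, (w ρ * (4 * d.h) - w ρ *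
        d.av (fun X D => phi d.p X D (f0 q0 q1 v0 1 ρ) (f1 q0 q1 v0 1 ρ))) := by
      refine Finset.sum_le_sum fun ρ hρ => ?_
      have := mul_le_mul_of_nonneg_left (h6 ρ hρ) (hO.1 ρ hρ)
      linarith
    rw [Finset.sum_sub_distrib, ← Finset.sum_mul, hO.2.1, one_mul] at h8
    linarith
  have h6 := h4.trans (mul_le_mul_of_nonneg_left h5 (by linarith))
  refine fin_level hu h6 (E' := b * 2 + 1) ?_ (mul_div_cancel₀ _ hu.ne')
  unfold B1
  rw [mul_div_cancel₀ _ hu.ne']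
  ring

/-- from level 1 to level 2 -/
theorem R12 (hb1 : 1 < b) (hor : ∃ T w, Oracle b T w) (h : R1 b c y E) :
    R2 b c y ((b * (E + 2) + 1) / (b - 1)) := by
  intro v0 v1 k p0 p1 g
  obtain ⟨T, w, hO, hT⟩ := oracle_ev hor (geo2 g)
  have e1 := Ev.all fun τ hτ => h _ _ _ _ (hT τ hτ).2.1
  have e2 := ev_kt hO hb1 c (geo2K g) fun τ hτ => (hT τ hτ).2.2
  set F0 : Finset ℚ := {0, v0 + k * v1, (v0 + k * v1) / k} ∪
    (T ∪ T.image fun τ => τ / ((τ - p0) / p1)) with hF0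
  have e3 : Ev c (fun d => d.ok c {-v0} F0) := Ev.ok (by
    intro q hq
    rw [Finset.mem_singleton.mp hq]
    exact neg_ne_zero.mpr g.hv0)
  refine ((e1.and e2).and e3).mono ?_
  rintro d ⟨⟨h1, h2⟩, ok⟩
  have h4 := avg2 hb1 hO g (fun τ hτ => (hT τ hτ).1) ok (by simp [hF0]) (by simp)
    (by simp [hF0]) (by simp [hF0])
    (fun τ hτ => Finset.mem_union_right _ (Finset.mem_union_left _ hτ))
    (fun τ hτ => Finset.mem_union_right _ (Finset.mem_union_right _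
      (Finset.mem_image_of_mem (fun τ => τ / ((τ - p0) / p1)) hτ)))
  have hu : 0 < b - 1 := by linarith
  have h5 := wsum_le hO.1 hO.2.1 (C := 2 * d.h) h1 h2
  have h6 := h4.trans (mul_le_mul_of_nonneg_left h5 (by linarith))
  refine fin_level hu h6 (E' := b * (E + 2) + 1) ?_ (mul_div_cancel₀ _ hu.ne')
  unfold B2
  rw [mul_div_cancel₀ _ hu.ne']
  ring

/-- from level 2 to level 3 -/
theorem R23 (hb1 : 1 < b) (hor : ∃ T w, Oracle b T w) (h : R2 b c y E) :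
    R3 b c y ((b * (E + 2) + 1) / (b - 1)) := by
  intro v0 v1 j k z0 z1 g
  obtain ⟨T, w, hO, hT⟩ := oracle_ev hor (geo3 g)
  have e1 := Ev.all fun τ hτ => h _ _ _ _ _ (hT τ hτ).2.1
  have e2 := ev_kt hO hb1 c (geo3K g) fun τ hτ => (hT τ hτ).2.2
  set F0 : Finset ℚ := {0, v0 + k * v1, (v0 + k * v1) / k, v0 + j * v1, (v0 + j * v1) / j} ∪
    (T ∪ T.image fun τ => τ / ((τ - z0) / z1)) with hF0
  have e3 : Ev c (fun d => d.ok c {-v0} F0) := Ev.ok (by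
    intro q hq
    rw [Finset.mem_singleton.mp hq]
    exact neg_ne_zero.mpr g.hv0)
  refine ((e1.and e2).and e3).mono ?_
  rintro d ⟨⟨h1, h2⟩, ok⟩
  have h4 := avg3 hb1 hO g (fun τ hτ => (hT τ hτ).1) ok (by simp [hF0]) (by simp)
    (by simp [hF0]) (by simp [hF0])
    (fun τ hτ => Finset.mem_union_right _ (Finset.mem_union_left _ hτ))
    (fun τ hτ => Finset.mem_union_right _ (Finset.mem_union_right _
      (Finset.mem_image_of_mem (fun τ => τ / ((τ - z0) / z1)) hτ)))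
    (by simp [hF0]) (by simp [hF0])
  have hu : 0 < b - 1 := by linarith
  have h5 := wsum_le hO.1 hO.2.1 (C := 2 * d.h) h1 h2
  have h6 := h4.trans (mul_le_mul_of_nonneg_left h5 (by linarith))
  refine fin_level hu h6 (E' := b * (E + 2) + 1) ?_ (mul_div_cancel₀ _ hu.ne')
  unfold B3
  rw [mul_div_cancel₀ _ hu.ne']
  ring

/-- the constant `N3` -/
def N3 (b c : ℝ) : ℝ :=
  b * (b * (4 * b - ((b + 2) * c - 2 - b) - (4 * c - 4)) +
    (b - 1) * (2 * b - ((b + 2) * c - 2 - b)) - (b - 1) * (6 * c - 7)) +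
    (b - 1) ^ 2 * (2 * b - ((b + 2) * c - 2 - b)) - (b - 1) ^ 2 * (8 * c - 10)

/-- The condition of the step. -/
def Good3 (b c : ℝ) : Prop := 1 < b ∧ b ≤ 2 ∧ 1 < c ∧ c ≤ b ∧
  N3 b c + (b - 1) ^ 3 * (4 - 4 * c) < 0

/-- the gain -/
noncomputable def gain (b c : ℝ) : ℝ := (4 * c - 4) - N3 b c / (b - 1) ^ 3

/-- the factor -/
noncomputable def lam (b : ℝ) : ℝ := b ^ 3 / (b - 1) ^ 3

theorem gain_pos (g : Good3 b c) : 0 < gain b c := by
  obtain ⟨h1, -, -, -, h2⟩ := g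
  have hu : 0 < (b - 1) ^ 3 := pow_pos (by linarith) 3
  unfold gain
  rw [sub_pos, div_lt_iff₀ hu]
  linarith

theorem one_le_lam (hb1 : 1 < b) : 1 ≤ lam b := by
  have hu : 0 < (b - 1) ^ 3 := pow_pos (by linarith) 3
  unfold lam
  rw [one_le_div hu]
  exact pow_le_pow_left₀ (by linarith) (by linarith) 3

/-- the computation -/
theorem alg3 {h P K b1 b2 b3 : ℝ} (hb1 : 1 < b) (hb2 : b ≤ 2) (hP : P ≤ 2 * h)
    (hK : K = (3 * (c * h) - 2 * h + (b - 1) * (c * h + P - 2 * h)) / b - h)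
    (h1 : (b - 1) * b1 = b * (4 * h - K - y * h) - (4 * (c * h) - 2 * h - P))
    (h2 : (b - 1) * b2 = b * (2 * h + b1 - K) - (6 * (c * h) - 5 * h - P))
    (h3 : (b - 1) * b3 = b * (2 * h + b2 - K) - (8 * (c * h) - 8 * h - P)) :
    b3 + 2 * h - K - (4 * (c * h) - 4 * h - P) ≤ 4 * h - K - (lam b * y + gain b c) * h := by
  have hb0 : b ≠ 0 := by linarith
  have hu : 0 < b - 1 := by linarith
  have hu3 : 0 < (b - 1) ^ 3 := pow_pos hu 3
  have hκ : b * K = ((b + 2) * c - 2 - b) * h - (b - 1) * (2 * h - P) := by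
    rw [hK]
    field_simp
    ring
  set x := 2 * h - P with hx
  have hx0 : 0 ≤ x := by linarith
  have hP' : P = 2 * h - x := by rw [hx]; ring
  set N1 := 4 * b - ((b + 2) * c - 2 - b) - (4 * c - 4) with hN1
  have e1 : (b - 1) * b1 = (N1 - b * y) * h + (b - 2) * x := by
    rw [h1, hP']
    have : b * (4 * h - K - y * h) = 4 * b * h - b * K - b * y * h := by ring
    rw [this, hκ, hN1]
    ring
  have e2 : (b - 1) ^ 2 * b2 = ((b * N1 + (b - 1) * (2 * b - ((b + 2) * c - 2 - b)) -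
      (b - 1) * (6 * c - 7)) - b ^ 2 * y) * h + (b * (b - 2) + (b - 1) ^ 2 - (b - 1)) * x := by
    have : (b - 1) ^ 2 * b2 = (b - 1) * ((b - 1) * b2) := by ring
    rw [this, h2, hP']
    have : (b - 1) * (b * (2 * h + b1 - K) - (6 * (c * h) - 5 * h - (2 * h - x))) =
      2 * b * (b - 1) * h + b * ((b - 1) * b1) - (b - 1) * (b * K) -
        (b - 1) * (6 * (c * h) - 5 * h - (2 * h - x)) := by ring
    rw [this, e1, hκ]
    ring
  have e3 : (b - 1) ^ 3 * b3 = (N3 b c - b ^ 3 * y) * h +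
      (b * (b * (b - 2) + (b - 1) ^ 2 - (b - 1)) + (b - 1) ^ 3 - (b - 1) ^ 2) * x := by
    have : (b - 1) ^ 3 * b3 = (b - 1) ^ 2 * ((b - 1) * b3) := by ring
    rw [this, h3, hP']
    have : (b - 1) ^ 2 * (b * (2 * h + b2 - K) - (8 * (c * h) - 8 * h - (2 * h - x))) =
      2 * b * (b - 1) ^ 2 * h + b * ((b - 1) ^ 2 * b2) - (b - 1) ^ 2 * (b * K) -
        (b - 1) ^ 2 * (8 * (c * h) - 8 * h - (2 * h - x)) := by ring
    rw [this, e2, hκ, hN1]
    unfold N3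
    ring
  have hco : b * (b * (b - 2) + (b - 1) ^ 2 - (b - 1)) + (b - 1) ^ 3 - (b - 1) ^ 2 ≤ 0 := by
    have q1 : b ^ 2 * (b - 2) ≤ 0 := mul_nonpos_of_nonneg_of_nonpos (sq_nonneg b) (by linarith)
    have q2 : b * ((b - 1) * (b - 2)) ≤ 0 := mul_nonpos_of_nonneg_of_nonpos (by linarith)
      (mul_nonpos_of_nonneg_of_nonpos hu.le (by linarith))
    have q3 : (b - 1) ^ 2 * (b - 2) ≤ 0 :=
      mul_nonpos_of_nonneg_of_nonpos (sq_nonneg _) (by linarith)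
    nlinarith
  have hco' := mul_nonneg hx0 (neg_nonneg.mpr hco)
  refine le_of_mul_le_mul_left ?_ hu3
  have g1 : (b - 1) ^ 3 * (4 * h - K - (lam b * y + gain b c) * h) =
      (b - 1) ^ 3 * (4 * h - K - (4 * c - 4) * h) - (b ^ 3 * y - N3 b c) * h := by
    unfold lam gain
    field_simp
    ring
  rw [g1]
  have g2 : (b - 1) ^ 3 * (b3 + 2 * h - K - (4 * (c * h) - 4 * h - P)) =
      (b - 1) ^ 3 * b3 + (b - 1) ^ 3 * (2 * h - K - (4 * (c * h) - 4 * h - (2 * h - x))) := by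
    rw [hP']
    ring
  rw [g2, e3]
  have hx3 : 0 ≤ (b - 1) ^ 3 * x := mul_nonneg hu3.le hx0
  nlinarith

/-- the Katz-Tao constant for admissible data -/
theorem K_eq {d : Dat} {Q F : Finset ℚ} (ok : d.ok c Q F) :
    d.K b = (3 * (c * d.h) - 2 * d.h + (b - 1) * (c * d.h + d.P - 2 * d.h)) / b - d.h := by
  unfold Dat.K Pool.Agent.W410.AK.KK
  rw [ok.hD]
  rfl

/-- from level 3 to `β` -/
theorem R3Q (hb1 : 1 < b) (hb2 : b ≤ 2) (hor : ∃ T w, Oracle b T w) (h : R3 b c y E) :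
    QQ b c (lam b * y + gain b c) (E + 3) := by
  intro v0 v1 l j k nt
  obtain ⟨w0, w1, hK, hev⟩ := geoF nt
  obtain ⟨T, w, hO, hT⟩ := oracle_ev hor hev
  have e1 := Ev.all fun τ hτ => h _ _ _ _ _ _ (hT τ hτ).1
  have e2 := ev_kt hO hb1 c hK fun τ hτ => (hT τ hτ).2
  set F0 : Finset ℚ := {0, v0 + k * v1, (v0 + k * v1) / k, v0 + l * v1, (v0 + l * v1) / l}
    with hF0
  have e3 : Ev c (fun d => d.ok c {-v0} F0) := Ev.ok (by
    intro q hq
    rw [Finset.mem_singleton.mp hq]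
    exact neg_ne_zero.mpr nt.hv0)
  refine ((e1.and e2).and e3).mono ?_
  rintro d ⟨⟨h1, h2⟩, ok⟩
  obtain ⟨τ, hτ, h3⟩ := Pool.Agent.W410.AK.exists_weight
    (f := fun τ => d.av (fun X D => phi d.p X D (f0 w0 w1 (v0 + l * v1) l τ)
      (f1 w0 w1 (v0 + l * v1) l τ))) hO.1 hO.2.1 h2
  have h4 := h1 τ hτ
  have hz : f0 w0 w1 (v0 + l * v1) l τ + l * f1 w0 w1 (v0 + l * v1) l τ = v0 + l * v1 := by
    unfold f0
    ring
  have h5 := avgF nt hz ok (by simp [hF0]) (by simp) (by simp [hF0]) (by simp [hF0])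
    (by simp [hF0]) (by simp [hF0])
  have hu : 0 < b - 1 := by linarith
  have h6 := alg3 (c := c) (y := y) (h := d.h) (P := d.P) (K := d.K b) (b1 := B1 b y d)
    (b2 := B2 b y d) (b3 := B3 b y d) hb1 hb2 ok.ctx.P_le (K_eq ok)
    (by unfold B1; rw [mul_div_cancel₀ _ hu.ne', ok.hD])
    (by unfold B2; rw [mul_div_cancel₀ _ hu.ne', ok.hD])
    (by unfold B3; rw [mul_div_cancel₀ _ hu.ne', ok.hD])
  rw [ok.hD] at h5
  linarith

/-- the sequence of gains -/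
noncomputable def ys (b c : ℝ) : ℕ → ℝ
  | 0 => 0
  | n + 1 => lam b * ys b c n + gain b c

theorem ys_nonneg (g : Good3 b c) (n : ℕ) : n * gain b c ≤ ys b c n := by
  have h1 := one_le_lam g.1
  have h2 := gain_pos g
  induction n with
  | zero => simp [ys]
  | succ n ih =>
    have h3 : 0 ≤ ys b c n := (mul_nonneg (Nat.cast_nonneg n) h2.le).trans ih
    have h4 : 1 * ys b c n ≤ lam b * ys b c n := mul_le_mul_of_nonneg_right h1 h3
    unfold ys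
    push_cast
    linarith

/-- the induction -/
theorem R1_all (g : Good3 b c) (hor : ∃ T w, Oracle b T w) (n : ℕ) :
    ∃ E, R1 b c (ys b c n) E := by
  induction n with
  | zero => exact ⟨_, R1_zero g.1 hor⟩
  | succ n ih =>
    obtain ⟨E, hE⟩ := ih
    exact ⟨_, QR1 g.1 hor (R3Q g.1 g.2.1 hor (R23 g.1 hor (R12 g.1 hor hE)))⟩

end

end Pool.Agent.TH404.AK
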