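import Pool.Agent.TH404.AK.Dec

/-!
# The inequalities of one step

`U1`, `U2`, `U3` are the entropies of a point of the first plane together with `κ` for two, three
and four planes; `bet` is the entropy of two lines through the common point of two planes.
-/

set_option autoImplicit false
set_option linter.unusedSectionVars false
set_option linter.unnecessarySeqFocus false

open Finset

namespace Pool.Agent.TH404.AK
open Pool.Agent.W904.AK Pool.Agent.W859.AK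

/-- A point on the line `a + k b = s`, on the line joining `(z0, z1)` and `(τ, 0)`. -/
def f1 (z0 z1 s k τ : ℚ) : ℚ := z1 * (τ - s) / (τ - z0 - k * z1)

/-- The first coordinate. -/
def f0 (z0 z1 s k τ : ℚ) : ℚ := s - k * f1 z0 z1 s k τ

theorem f_on {z0 z1 s k τ : ℚ} (hz : z1 ≠ 0) (hτ : τ - z0 - k * z1 ≠ 0) :
    f0 z0 z1 s k τ + (τ - z0) / z1 * f1 z0 z1 s k τ = τ := by
  unfold f0 f1
  field_simp
  ring

theorem z_on {z0 z1 τ : ℚ} (hz : z1 ≠ 0) : z0 + (τ - z0) / z1 * z1 = τ := by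
  field_simp
  ring

variable {Ω : Type} [Fintype Ω] {W : Type} [AddCommGroup W] [Module ℚ W]

/-- Entropy of `((q0, q1), κ)` for two planes. -/
noncomputable def U1 (p : Ω → ℝ) (X D : Ω → W) (v0 v1 q0 q1 : ℚ) : ℝ :=
  H (C1 p X D v0 1) (fun y => (pt X D q0 q1 y.1, kap X D v0 v1 y))

/-- Entropy of `((p0, p1), κ)` for three planes. -/
noncomputable def U2 (p : Ω → ℝ) (X D : Ω → W) (v0 v1 k p0 p1 : ℚ) : ℝ :=
  H (C2 p X D (v0 + k * v1) k v0 1) (fun y => (pt X D p0 p1 y.1, kap X D v0 v1 y.2))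

/-- Entropy of `((z0, z1), κ)` for four planes. -/
noncomputable def U3 (p : Ω → ℝ) (X D : Ω → W) (v0 v1 j k z0 z1 : ℚ) : ℝ :=
  H (C3 p X D (v0 + j * v1) j (v0 + k * v1) k v0 1)
    (fun y => (pt X D z0 z1 y.1, kap X D v0 v1 y.2.2))

/-- Entropy of two lines through the common point `(v0, v1)` of two planes sharing the line of
parameter `j`; the parameters of the lines are `l` and `k`. -/
noncomputable def bet (p : Ω → ℝ) (X D : Ω → W) (v0 v1 l j k : ℚ) : ℝ :=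
  H (C1 p X D (v0 + j * v1) j)
    (fun y => (pr2 X D (v0 + l * v1) l y.1, pr2 X D (v0 + k * v1) k y.2))

section

variable {p : Ω → ℝ} {X D : Ω → W} {b h : ℝ} {T : Finset ℚ} {w : ℚ → ℝ}

/-- The oracle for the first line of a configuration. -/
theorem step (hO : Oracle b T w) (hb : 0 ≤ b) {Ω' : Type} [Fintype Ω'] {γ δ : Type*}
    {q : Ω' → ℝ} (hq : IsLaw q) {C : Ω' → γ} {X' D' : Ω' → W} {A : Ω' → δ}
    (hX : Det q D' X') (hA : Det q (fun x => (C x, D' x)) A) {R : ℚ → ℝ}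
    (hR : ∀ t ∈ T, H q (fun x => (C x, X' x + t • D' x)) ≤ R t) :
    (b - 1) * H q C + H q A ≤ b * ∑ t ∈ T, w t * R t := by
  have h1 := hO.cond' hq (C := C) (X := X') (D := D') (A := A)
    (fun x y hx hy h => hX x y hx hy (congrArg Prod.snd h)) hA
  have h2 : ∑ t ∈ T, w t * (H q (fun x => (C x, X' x + t • D' x)) - H q C) ≤
      ∑ t ∈ T, w t * R t - H q C := by
    calc _ ≤ ∑ t ∈ T, (w t * R t - w t * H q C) := Finset.sum_le_sum fun t ht => by
            have := mul_le_mul_of_nonneg_left (hR t ht) (hO.1 t ht)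
            rw [mul_sub]
            linarith
      _ = _ := by rw [Finset.sum_sub_distrib, ← Finset.sum_mul, hO.2.1, one_mul]
  have h3 := mul_le_mul_of_nonneg_left h2 hb
  rw [mul_sub] at h3
  linarith

theorem pp_le2 (hp : IsLaw p) {a c : ℚ} (h1 : H p (pos X D a) ≤ h) (h2 : H p (pos X D c) ≤ h) :
    pp p X D a c ≤ 2 * h := by
  have hl := pair_law hp X
  have e1 := subadd hl (Det.refl (pair p X) (fun z : Ω × Ω => (pos X D a z.1, pos X D c z.2)))
  have e2 : H (pair p X) (fun z : Ω × Ω => pos X D a z.1) = H p (pos X D a) :=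
    H_glue_fst hp (fun _ => rfl) (pos X D a)
  have e3 : H (pair p X) (fun z : Ω × Ω => pos X D c z.2) = H p (pos X D c) :=
    H_glue_snd hp (fun _ => rfl) (pos X D c)
  unfold pp
  linarith

/-- The joint entropy of all data of two planes. -/
theorem H_C1 (hp : IsLaw p) (hd : Det p D X) (s k : ℚ) :
    H (C1 p X D s k) (fun y => (dd D y.1, dd D y.2)) =
      2 * (2 * H p D - H p X) - pp p X D s (s / k) := by
  have h1 := H_add (p := p) (X := X) (D := D) (s := s) (k := k) (q := pair p X) (φ := id) hp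
    (pair_law hp X) (im_id _) (u := dd D) (v := dd D) (det_pr2 hd s k) (det_pr2 hd s k)
  rw [H_dd hp hd] at h1
  unfold C1
  rw [h1]
  ring

theorem det_A1 (hd : Det p D X) (s₂ k₂ s k : ℚ) :
    Det (C1 p X D s₂ k₂) (fun y => (dd D y.1, dd D y.2)) (fun y => pr2 X D s k y.1) := by
  intro y y' hy hy' h
  exact det_pr2 hd s k _ _ (add_supp hy).2.1 (add_supp hy').2.1 (congrArg Prod.fst h)

/-- The joint entropy of all data of three planes. -/
theorem H_C2 (hp : IsLaw p) (hd : Det p D X) (s₁ k₁ s k : ℚ) :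
    H (C2 p X D s₁ k₁ s k) (fun y => (dd D y.1, (dd D y.2.1, dd D y.2.2))) =
      3 * (2 * H p D - H p X) - pp p X D s₁ (s₁ / k₁) - pp p X D s (s / k) := by
  have h1 := H_add (p := p) (X := X) (D := D) (s := s₁) (k := k₁) (q := C1 p X D s k)
    (φ := Prod.fst) hp (C1_law hp s k) (C1_fst hp s k) (u := dd D)
    (v := fun y => (dd D y.1, dd D y.2)) (det_pr2 hd s₁ k₁) (det_A1 hd s k s₁ k₁)
  rw [H_dd hp hd, H_C1 hp hd] at h1
  unfold C2
  rw [h1]
  ring

theorem det_A2 (hd : Det p D X) (s₁ k₁ s₂ k₂ s k : ℚ) :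
    Det (C2 p X D s₁ k₁ s₂ k₂) (fun y => (dd D y.1, (dd D y.2.1, dd D y.2.2)))
      (fun y => pr2 X D s k y.1) := by
  intro y y' hy hy' h
  exact det_pr2 hd s k _ _ (add_supp hy).2.1 (add_supp hy').2.1 (congrArg Prod.fst h)

/-- The joint entropy of all data of four planes. -/
theorem H_C3 (hp : IsLaw p) (hd : Det p D X) (s₀ k₀ s₁ k₁ s k : ℚ) :
    H (C3 p X D s₀ k₀ s₁ k₁ s k)
      (fun y => (dd D y.1, (dd D y.2.1, (dd D y.2.2.1, dd D y.2.2.2)))) =
      4 * (2 * H p D - H p X) - pp p X D s₀ (s₀ / k₀) - pp p X D s₁ (s₁ / k₁) -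
        pp p X D s (s / k) := by
  have h1 := H_add (p := p) (X := X) (D := D) (s := s₀) (k := k₀) (q := C2 p X D s₁ k₁ s k)
    (φ := Prod.fst) hp (C2_law hp s₁ k₁ s k) (C2_fst hp s₁ k₁ s k) (u := dd D)
    (v := fun y => (dd D y.1, (dd D y.2.1, dd D y.2.2))) (det_pr2 hd s₀ k₀)
    (det_A2 hd s₁ k₁ s k s₀ k₀)
  rw [H_dd hp hd, H_C2 hp hd] at h1
  unfold C3
  rw [h1]
  ring

/-- One plane added in front: the oracle on its first line. -/
theorem lev (hO : Oracle b T w) (hb : 0 ≤ b) (hp : IsLaw p) (hd : Det p D X)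
    {s k z0 z1 : ℚ} (hs : s ≠ 0) (hk : k ≠ 0) (hz : z1 ≠ 0)
    (hT : ∀ τ ∈ T, τ ≠ 0 ∧ τ ≠ z0 ∧ τ - z0 - k * z1 ≠ 0)
    (hh : ∀ τ ∈ T, H p (pos X D τ) ≤ h ∧ H p (pos X D (τ / ((τ - z0) / z1))) ≤ h)
    {Ω₂ : Type} [Fintype Ω₂] {q : Ω₂ → ℝ} {φ : Ω₂ → Ω × Ω} (hq : IsLaw q)
    (hφ : im q φ = pair p X) {α : Type*} {κ : Ω₂ → W} {A : Ω₂ → α}
    (hdec : Det (add p X D s k q φ) (fun y => ((pt X D z0 z1 y.1, κ y.2), D y.1.1))
      (fun y => (dd D y.1, A y.2))) :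
    (b - 1) * H (add p X D s k q φ) (fun y => (pt X D z0 z1 y.1, κ y.2)) +
        H (add p X D s k q φ) (fun y => (dd D y.1, A y.2)) ≤
      b * ∑ τ ∈ T, w τ * (2 * h + H q (fun y => (pt X D (f0 z0 z1 s k τ) (f1 z0 z1 s k τ) (φ y),
        κ y)) - phi p X D (f0 z0 z1 s k τ) (f1 z0 z1 s k τ)) := by
  have hl := add_law (D := D) (s := s) (k := k) hp hq hφ
  refine step hO hb hl (C := fun y => (pt X D z0 z1 y.1, κ y.2)) (X' := fun y => X y.1.1)
    (D' := fun y => D y.1.1) ?_ hdec ?_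
  · intro y y' hy hy' e
    exact hd _ _ (pair_supp (add_supp hy).2.1).2.1 (pair_supp (add_supp hy').2.1).2.1 e
  · intro τ hτ
    obtain ⟨t0, t1, t2⟩ := hT τ hτ
    have hkt : (τ - z0) / z1 ≠ 0 := div_ne_zero (sub_ne_zero.mpr t1) hz
    have on1 := f_on (s := s) hz t2
    have on2 := z_on (z0 := z0) (τ := τ) hz
    have on3 : f0 z0 z1 s k τ + k * f1 z0 z1 s k τ = s := by unfold f0; ring
    set a := f0 z0 z1 s k τ with ha
    set c := f1 z0 z1 s k τ with hc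
    set kt := (τ - z0) / z1 with hkt'
    have h1 : H (add p X D s k q φ) (fun y => pr2 X D τ kt y.1) ≤ 2 * h := by
      rw [H_add_fst (D := D) (s := s) (k := k) hp hφ (pr2 X D τ kt)]
      exact pp_le2 hp (hh τ hτ).1 (hh τ hτ).2
    have h2 := H_add_snd (D := D) (p := p) (s := s) (k := k) hq hφ
      (fun y => (pt X D a c (φ y), κ y))
    have h3 : H (add p X D s k q φ) (fun y => pt X D a c (φ y.2)) = phi p X D a c := by
      rw [H_add_snd (D := D) (p := p) (s := s) (k := k) hq hφ (fun y => pt X D a c (φ y))]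
      exact H_map hφ (pt X D a c)
    have h4 := submod' hl (f := fun y => pr2 X D τ kt y.1)
      (g := fun y => (pt X D a c (φ y.2), κ y.2)) (h := fun y => pt X D a c (φ y.2))
      (k := fun y => ((pt X D z0 z1 y.1, κ y.2), X y.1.1 + τ • D y.1.1)) ?_ (Det.fst _ _ _) ?_
    · rw [h3, h2] at h4
      linarith
    · intro y y' hy hy' e
      obtain ⟨g1, g2, g3⟩ := add_supp hy
      obtain ⟨g1', g2', g3'⟩ := add_supp hy'
      have x1 := (pair_supp g2).1
      have x1' := (pair_supp g2').1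
      have im_ne : ∀ y₂, q y₂ ≠ 0 → X (φ y₂).1 = X (φ y₂).2 := by
        intro y₂ hy₂
        have : pair p X (φ y₂) ≠ 0 := by
          rw [← hφ]
          exact (im_pos hq φ hy₂).ne'
        exact (pair_supp this).1
      dsimp only at e ⊢
      rw [← pt_glue on3 hs hk x1 (im_ne _ g3) g1, ← pt_glue on3 hs hk x1' (im_ne _ g3') g1',
        pt_line on1 t0 hkt x1, pt_line on1 t0 hkt x1', e]
    · intro y y' hy hy' e
      obtain ⟨g1, g2, g3⟩ := add_supp hy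
      obtain ⟨g1', g2', g3'⟩ := add_supp hy'
      have x1 := (pair_supp g2).1
      have x1' := (pair_supp g2').1
      simp only [Prod.mk.injEq] at e ⊢
      obtain ⟨e1, e2, e3⟩ := e
      refine ⟨⟨?_, e3⟩, congrArg Prod.fst e1⟩
      rw [pt_line on2 t0 hkt x1, pt_line on2 t0 hkt x1', e1]

/-- Level 2. -/
theorem lev2 (hO : Oracle b T w) (hb : 0 ≤ b) (hp : IsLaw p) (hd : Det p D X)
    {v0 v1 k z0 z1 : ℚ} (hv0 : v0 ≠ 0) (hv1 : v1 ≠ 0) (hk : k ≠ 0) (hm : v0 + k * v1 ≠ 0)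
    (hz : z1 ≠ 0)
    (hT : ∀ τ ∈ T, τ ≠ 0 ∧ τ ≠ z0 ∧ τ - z0 - k * z1 ≠ 0)
    (hh : ∀ τ ∈ T, H p (pos X D τ) ≤ h ∧ H p (pos X D (τ / ((τ - z0) / z1))) ≤ h) :
    (b - 1) * U2 p X D v0 v1 k z0 z1 + (3 * (2 * H p D - H p X) -
        pp p X D (v0 + k * v1) ((v0 + k * v1) / k) - pp p X D v0 (v0 / 1)) ≤
      b * ∑ τ ∈ T, w τ * (2 * h + U1 p X D v0 v1 (f0 z0 z1 (v0 + k * v1) k τ)
        (f1 z0 z1 (v0 + k * v1) k τ) -
        phi p X D (f0 z0 z1 (v0 + k * v1) k τ) (f1 z0 z1 (v0 + k * v1) k τ)) := by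
  have h1 := lev hO hb hp hd hm hk hz hT hh (q := C1 p X D v0 1) (φ := Prod.fst)
    (C1_law hp v0 1) (C1_fst hp v0 1) (κ := kap X D v0 v1) (A := fun y => (dd D y.1, dd D y.2)) ?_
  · have h2 := H_C2 hp hd (v0 + k * v1) k v0 1
    unfold C2 at h2
    rw [h2] at h1
    exact h1
  · intro y y' hy hy' e
    simp only [Prod.mk.injEq] at e ⊢
    obtain ⟨⟨e1, e2⟩, e3⟩ := e
    have hmv : v0 + k * v1 ≠ v0 := by
      intro h0
      exact mul_ne_zero hk hv1 (by linarith)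
    obtain ⟨a1, a2, a3⟩ := dec2 hd hv0 rfl hm hk hmv hz (C2_supp hy) (C2_supp hy') e1 e2 e3
    exact ⟨dd_eq a1, dd_eq a2, dd_eq a3⟩

/-- Level 3. -/
theorem lev3 (hO : Oracle b T w) (hb : 0 ≤ b) (hp : IsLaw p) (hd : Det p D X)
    {v0 v1 j k z0 z1 : ℚ} (hv0 : v0 ≠ 0) (hv1 : v1 ≠ 0) (hj : j ≠ 0) (hs : v0 + j * v1 ≠ 0)
    (hk : k ≠ 0) (hm : v0 + k * v1 ≠ 0) (hjk : j ≠ k) (hz : z1 ≠ 0)
    (hT : ∀ τ ∈ T, τ ≠ 0 ∧ τ ≠ z0 ∧ τ - z0 - j * z1 ≠ 0)
    (hh : ∀ τ ∈ T, H p (pos X D τ) ≤ h ∧ H p (pos X D (τ / ((τ - z0) / z1))) ≤ h) :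
    (b - 1) * U3 p X D v0 v1 j k z0 z1 + (4 * (2 * H p D - H p X) -
        pp p X D (v0 + j * v1) ((v0 + j * v1) / j) -
        pp p X D (v0 + k * v1) ((v0 + k * v1) / k) - pp p X D v0 (v0 / 1)) ≤
      b * ∑ τ ∈ T, w τ * (2 * h + U2 p X D v0 v1 k (f0 z0 z1 (v0 + j * v1) j τ)
        (f1 z0 z1 (v0 + j * v1) j τ) -
        phi p X D (f0 z0 z1 (v0 + j * v1) j τ) (f1 z0 z1 (v0 + j * v1) j τ)) := by
  have h1 := lev hO hb hp hd hs hj hz hT hh (q := C2 p X D (v0 + k * v1) k v0 1)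
    (φ := Prod.fst) (C2_law hp (v0 + k * v1) k v0 1) (C2_fst hp (v0 + k * v1) k v0 1)
    (κ := fun y => kap X D v0 v1 y.2) (A := fun y => (dd D y.1, (dd D y.2.1, dd D y.2.2))) ?_
  · have h2 := H_C3 hp hd (v0 + j * v1) j (v0 + k * v1) k v0 1
    unfold C3 at h2
    rw [h2] at h1
    exact h1
  · intro y y' hy hy' e
    simp only [Prod.mk.injEq] at e ⊢
    obtain ⟨⟨e1, e2⟩, e3⟩ := e
    have hsm : v0 + j * v1 ≠ v0 + k * v1 := by
      intro h0
      have : (j - k) * v1 = 0 := by linarith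
      rcases mul_eq_zero.mp this with h5 | h5
      · exact hjk (by linarith)
      · exact hv1 h5
    obtain ⟨a1, a2, a3, a4⟩ := dec3 hd hv0 hv1 rfl hs hj rfl hm hk hsm hz (C3_supp hy)
      (C3_supp hy') e1 e2 e3
    exact ⟨dd_eq a1, dd_eq a2, dd_eq a3, dd_eq a4⟩

/-- The parameters of the type at level 1. -/
def ee (v0 v1 q0 q1 ρ : ℚ) : ℚ := 1 - v1 * (ρ - q0) / (q1 * (ρ - v0))

/-- The height of the line through `κ`. -/
def ch (v0 v1 q0 q1 ρ : ℚ) : ℚ := v0 + 1 / ee v0 v1 q0 q1 ρ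

/-- The parameter of the line through the height `ch`. -/
def kM (v0 v1 q0 q1 ρ : ℚ) : ℚ := (ch v0 v1 q0 q1 ρ - f0 q0 q1 v0 1 ρ) / f1 q0 q1 v0 1 ρ

/-- Level 1. -/
theorem lev1 (hO : Oracle b T w) (hb : 0 ≤ b) (hp : IsLaw p) (hd : Det p D X)
    {v0 v1 q0 q1 : ℚ} (hv0 : v0 ≠ 0) (hq : q1 ≠ 0)
    (hT : ∀ ρ ∈ T, ρ ≠ 0 ∧ ρ ≠ q0 ∧ ρ ≠ v0 ∧ ρ - q0 - 1 * q1 ≠ 0 ∧ ee v0 v1 q0 q1 ρ ≠ 0) :
    (b - 1) * U1 p X D v0 v1 q0 q1 + (2 * (2 * H p D - H p X) - pp p X D v0 (v0 / 1)) ≤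
      b * ∑ ρ ∈ T, w ρ * bet p X D (f0 q0 q1 v0 1 ρ) (f1 q0 q1 v0 1 ρ) ((ρ - q0) / q1) 1
        (kM v0 v1 q0 q1 ρ) := by
  have hl := C1_law (X := X) (D := D) hp v0 1
  rw [← H_C1 hp hd v0 1]
  refine step hO hb hl (C := fun y => (pt X D q0 q1 y.1, kap X D v0 v1 y))
    (X' := fun y => X y.1.1) (D' := fun y => D y.1.1) ?_ ?_ ?_
  · intro y y' hy hy' e
    exact hd _ _ (C1_supp hy).p11 (C1_supp hy').p11 e
  · intro y y' hy hy' e
    simp only [Prod.mk.injEq] at e ⊢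
    obtain ⟨⟨e1, e2⟩, e3⟩ := e
    obtain ⟨a1, a2⟩ := dec1 hd hv0 hq (C1_supp hy) (C1_supp hy') e1 e2 e3
    exact ⟨dd_eq a1, dd_eq a2⟩
  · intro ρ hρ
    obtain ⟨t0, t1, t2, t3, t4⟩ := hT ρ hρ
    have on1 := f_on (s := v0) hq t3
    have on2 := z_on (z0 := q0) (τ := ρ) hq
    have on3 : f0 q0 q1 v0 1 ρ + 1 * f1 q0 q1 v0 1 ρ = v0 := by unfold f0; ring
    have hr1 : f1 q0 q1 v0 1 ρ ≠ 0 := by
      unfold f1
      exact div_ne_zero (mul_ne_zero hq (sub_ne_zero.mpr t2)) t3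
    have on4 : f0 q0 q1 v0 1 ρ + kM v0 v1 q0 q1 ρ * f1 q0 q1 v0 1 ρ = ch v0 v1 q0 q1 ρ := by
      unfold kM
      field_simp
      ring
    have hkt : (ρ - q0) / q1 ≠ 0 := div_ne_zero (sub_ne_zero.mpr t1) hq
    unfold bet
    rw [on1, on3, on4]
    refine H_mono hl ?_
    intro y y' hy hy' e
    have s1 := C1_supp hy
    have s2 := C1_supp hy'
    simp only [Prod.mk.injEq] at e ⊢
    obtain ⟨e1, e2⟩ := e
    refine ⟨⟨?_, ?_⟩, congrArg Prod.fst e1⟩
    · rw [pt_line on2 t0 hkt s1.x1, pt_line on2 t0 hkt s2.x1, e1]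
    · -- the point `κ`
      have key : ∀ y, S1 p X D v0 1 y → kap X D v0 v1 y =
          ee v0 v1 q0 q1 ρ • (pr2 X D (ch v0 v1 q0 q1 ρ) (kM v0 v1 q0 q1 ρ) y.2).1 +
          ((1 - ee v0 v1 q0 q1 ρ) * v0 / ρ) • (pr2 X D ρ ((ρ - q0) / q1) y.1).1 +
          (v1 * ((ρ - q0) / q1) / ρ) • (pr2 X D ρ ((ρ - q0) / q1) y.1).2 := by
        intro y s
        have g1 : X y.1.1 + v0 • D y.1.1 = X y.2.1 + v0 • D y.2.1 := congrArg Prod.fst s.e
        have g2 := s.x1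
        have g3 : ee v0 v1 q0 q1 ρ * (ch v0 v1 q0 q1 ρ - v0) = 1 := by
          unfold ch
          rw [add_sub_cancel_left, mul_one_div_cancel t4]
        have g4 : (1 - ee v0 v1 q0 q1 ρ) * v0 / ρ + v1 * ((ρ - q0) / q1) / ρ =
            1 - ee v0 v1 q0 q1 ρ := by
          have h1 : ρ - v0 ≠ 0 := sub_ne_zero.mpr t2
          unfold ee
          field_simp
          ring
        have g5 : (v1 * ((ρ - q0) / q1) / ρ) * (ρ / ((ρ - q0) / q1)) = v1 := by
          have : ρ - q0 ≠ 0 := sub_ne_zero.mpr t1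
          field_simp
        have g6 : ((1 - ee v0 v1 q0 q1 ρ) * v0 / ρ) * ρ = (1 - ee v0 v1 q0 q1 ρ) * v0 := by
          field_simp
        unfold kap pt pr2 pos
        dsimp only
        rw [← g2]
        generalize ee v0 v1 q0 q1 ρ = e at *
        generalize ch v0 v1 q0 q1 ρ = c at *
        generalize (1 - e) * v0 / ρ = A at *
        generalize ρ / ((ρ - q0) / q1) = R at *
        generalize v1 * ((ρ - q0) / q1) / ρ = B at *
        have h7 : e • (X y.2.1 + c • D y.2.1) =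
            e • (X y.1.1 + v0 • D y.1.1) + D y.2.1 := by
          rw [g1]
          have : c = v0 + (c - v0) := by ring
          rw [this, add_smul, ← add_assoc, smul_add e (X y.2.1 + v0 • D y.2.1), smul_smul, g3,
            one_smul]
        rw [h7, smul_add A, smul_add B, smul_smul, smul_smul, g6, g5]
        have h8 : B = 1 - e - A := by linarith
        rw [h8]
        module
      rw [key y s1, key y' s2, e1, e2]

/-- The last inequality. -/
theorem levF (hp : IsLaw p) (hd : Det p D X) {v0 v1 l j k z0 z1 : ℚ}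
    (hv0 : v0 ≠ 0) (hv1 : v1 ≠ 0) (hl : l ≠ 0) (hn : v0 + l * v1 ≠ 0)
    (hj : j ≠ 0) (hs : v0 + j * v1 ≠ 0) (hk : k ≠ 0) (hm : v0 + k * v1 ≠ 0)
    (hz : z0 + l * z1 = v0 + l * v1)
    (h1 : H p (pos X D (v0 + l * v1)) ≤ h) (h2 : H p (pos X D ((v0 + l * v1) / l)) ≤ h) :
    bet p X D v0 v1 l j k + (2 * (2 * H p D - H p X) -
        pp p X D (v0 + k * v1) ((v0 + k * v1) / k) - pp p X D v0 (v0 / 1)) ≤
      U3 p X D v0 v1 j k z0 z1 + 2 * h - phi p X D z0 z1 := by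
  set s := v0 + j * v1 with hsdef
  set m := v0 + k * v1 with hmdef
  set n := v0 + l * v1 with hndef
  have hlaw := C3_law (X := X) (D := D) hp s j m k v0 1
  set q := C3 p X D s j m k v0 1 with hq
  -- entropies of the first plane
  have e1 : H q (fun y => pr2 X D n l y.1) ≤ 2 * h := by
    have := H_map (C3_fst (X := X) (D := D) hp s j m k v0 1) (pr2 X D n l)
    rw [← hq] at this
    rw [this]
    exact pp_le2 hp h1 h2
  have e2 : H q (fun y => pt X D z0 z1 y.1) = phi p X D z0 z1 := by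
    have := H_map (C3_fst (X := X) (D := D) hp s j m k v0 1) (pt X D z0 z1)
    rw [← hq] at this
    exact this
  -- first submodularity
  have e3 := submod' hlaw (f := fun y => pr2 X D n l y.1)
    (g := fun y => (pt X D z0 z1 y.1, kap X D v0 v1 y.2.2)) (h := fun y => pt X D z0 z1 y.1)
    (k := fun y => (pr2 X D n l y.1, (dd D y.2.2.1, dd D y.2.2.2))) (by
      intro y y' hy hy' e
      dsimp only at e ⊢
      rw [pt_line hz hn hl (C3_supp hy).x, pt_line hz hn hl (C3_supp hy').x, e])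
    (Det.fst _ _ _) (by
      intro y y' hy hy' e
      simp only [Prod.mk.injEq] at e ⊢
      obtain ⟨g1, g2, g3⟩ := e
      obtain ⟨a1, a2⟩ := decF hd hv0 hv1 hsdef hs hj hmdef hm hk hndef hn hl (C3_supp hy)
        (C3_supp hy') g1 g3
      exact ⟨g1, dd_eq a1, dd_eq a2⟩)
  -- the marginal on the first two planes
  have e4 : im q (fun y => (y.1, y.2.1)) = C1 p X D s j := by
    have := add_im (p := p) (X := X) (D := D) (s := s) (k := j) (q := C2 p X D m k v0 1)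
      (φ := Prod.fst) (ψ := Prod.fst) (C2_fst hp m k v0 1) (φ' := id) (fun _ => rfl)
    exact this
  have e5 := H_map e4 (fun y : (Ω × Ω) × (Ω × Ω) => (dd D y.1, dd D y.2))
  have e6 := H_map e4 (fun y : (Ω × Ω) × (Ω × Ω) => (pr2 X D n l y.1, pr2 X D m k y.2))
  rw [H_C1 hp hd] at e5
  dsimp only at e5 e6
  -- second submodularity
  have e7 := submod' hlaw (f := fun y => (dd D y.1, dd D y.2.1))
    (g := fun y => (pr2 X D n l y.1, (dd D y.2.2.1, dd D y.2.2.2)))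
    (h := fun y => (pr2 X D n l y.1, pr2 X D m k y.2.1))
    (k := fun y => (dd D y.1, (dd D y.2.1, (dd D y.2.2.1, dd D y.2.2.2)))) (by
      intro y y' hy hy' e
      simp only [Prod.mk.injEq] at e ⊢
      have a1 := add_supp hy
      have a1' := add_supp hy'
      exact ⟨det_pr2 hd n l _ _ a1.2.1 a1'.2.1 e.1,
        det_pr2 hd m k _ _ (add_supp a1.2.2).2.1 (add_supp a1'.2.2).2.1 e.2⟩)
    (by
      intro y y' hy hy' e
      simp only [Prod.mk.injEq] at e ⊢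
      refine ⟨e.1, ?_⟩
      have a1 := (add_supp (add_supp hy).2.2)
      have a1' := (add_supp (add_supp hy').2.2)
      rw [a1.1, a1'.1]
      exact det_pr2 hd m k _ _ (add_supp a1.2.2).2.1 (add_supp a1'.2.2).2.1 e.2.1)
    (by
      intro y y' hy hy' e
      simp only [Prod.mk.injEq] at e ⊢
      exact ⟨e.1.1, e.1.2, e.2.2⟩)
  have e8 := H_C3 hp hd s j m k v0 1
  rw [← hq] at e8
  have e9 : H q (fun y => (pr2 X D n l y.1, pr2 X D m k y.2.1)) = bet p X D v0 v1 l j k := e6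
  have e10 : H q (fun y => (pt X D z0 z1 y.1, kap X D v0 v1 y.2.2)) =
    U3 p X D v0 v1 j k z0 z1 := rfl
  rw [e9] at e7
  rw [e10] at e3
  linarith

end

end Pool.Agent.TH404.AK
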